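import Pool.Agent.Lib.MP_c9a594_an.AR.Core

/-! A small integer polynomial in several of the numbers forces a small polynomial in one. -/

open Filter Topology Real Finset Polynomial Matrix

namespace Pool.Agent.Lib.MP_c9a594_an.AR

open AI

section alg

variable {R : Type} [CommRing R]

/-- A singular matrix has a kernel vector of controlled size. -/
lemma exists_ker [IsDomain R] (Φ : Fil R) {n : Type} [Fintype n] [DecidableEq n]
    {M : Matrix n n R} {m : ℕ} {r : ℝ} (hr : 0 ≤ r) (h : ∀ i j, M i j ∈ Φ.F m r)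
    (h0 : M.det = 0) : ∃ v, v ≠ 0 ∧ v ᵥ* M = 0 ∧
      ∀ i, v i ∈ Φ.F (Fintype.card n * m) (Fintype.card n * r) := by
  classical
  have h1 : ∀ i j, charmatrix M i j ∈ (polyFil Φ).F m r := fun i j l => by
    rw [charmatrix_apply, coeff_sub, coeff_C, diagonal_apply]
    refine sub_mem ?_ (by split_ifs; exacts [h i j, zero_mem _])
    split_ifs
    · rw [coeff_X]
      split_ifs
      exacts [Φ.mono (Nat.zero_le _) hr Φ.one, zero_mem _]
    · simp
  have h2 : ∀ i j, (charmatrix M).adjugate i j ∈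
      (polyFil Φ).F (Fintype.card n * m) (Fintype.card n * r) := fun i j => by
    rw [adjugate_apply]
    simpa using (polyFil Φ).det (m := m) (α := fun _ => r) (γ := fun _ => 0)
      (M := (charmatrix M).updateRow j (Pi.single i 1)) fun k l => by
        rw [updateRow_apply, add_zero, Pi.single_apply]
        split_ifs
        exacts [(polyFil Φ).mono (Nat.zero_le _) hr (polyFil Φ).one, zero_mem _, h1 k l]
  have h3 := adjugate_mul (charmatrix M)
  have hex : ∃ j, ∃ i l, ((charmatrix M).adjugate i l).coeff j ≠ 0 := by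
    by_contra! hc
    have h4 : (charmatrix M).adjugate = 0 := by ext i l j; simp [hc]
    have h5 := congrArg det h3
    rw [h4, zero_mul, det_smul, det_one, mul_one] at h5
    cases isEmpty_or_nonempty n
    · simp at h0
    · exact pow_ne_zero _ (charpoly_monic M).ne_zero (h5.symm.trans det_zero)
  obtain ⟨i, l, hil⟩ := Nat.find_spec hex
  let A : Matrix n n R := of fun i l => ((charmatrix M).adjugate i l).coeff (Nat.find hex)
  have h4 : A * M = (-(charmatrix M).det.coeff (Nat.find hex)) • (1 : Matrix n n R) := by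
    ext i k
    have h5 := congrArg (fun B => (B i k).coeff (Nat.find hex)) h3
    have h6 : ((charmatrix M).adjugate i k * X).coeff (Nat.find hex) = 0 := by
      rcases h7 : Nat.find hex with _ | j
      · simp
      · rw [coeff_mul_X]
        by_contra h8
        exact Nat.find_min hex (by omega) ⟨i, k, h8⟩
    have h7 : ∀ B : Matrix n n R[X], (B * charmatrix M) i k =
        B i k * X - ∑ l, B i l * C (M l k) := fun B => by
      rw [charmatrix, Matrix.mul_sub, Matrix.sub_apply, scalar_apply, mul_diagonal,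
        Matrix.mul_apply]
      rfl
    simp only [h7, coeff_sub, h6, zero_sub, finsetSum_coeff, coeff_mul_C] at h5
    rw [Matrix.mul_apply, Matrix.smul_apply, ← neg_inj]
    refine h5.trans ?_
    simp only [Matrix.smul_apply, one_apply]
    split_ifs <;> simp
  have h5 := congrArg det h4
  rw [det_mul, h0, mul_zero, det_smul, det_one, mul_one] at h5
  rw [pow_eq_zero_iff'.mp h5.symm |>.1, zero_smul] at h4
  exact ⟨A i, fun h6 => hil (congrFun h6 l), funext fun k => congrFun (congrFun h4 i) k,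
    fun k => h2 i k _⟩

lemma syl_rel {e D : ℕ} {P F : R[X]} (hP : P.natDegree ≤ D) (hF : F.natDegree ≤ e)
    {v : Fin e ⊕ Fin D → R} (hv : v ᵥ* syl e D P F = 0) :
    pol (fun i => v (.inl i)) * P + pol (fun j => v (.inr j)) * F = 0 := by
  have h3 : ∑ r, C (v r) * AI.row e D P F r = 0 := by
    ext n
    rw [finsetSum_coeff, coeff_zero]
    by_cases hn : n < e + D
    · have := congrFun hv (finSumFinEquiv.symm ⟨n, hn⟩)
      simpa [vecMul, dotProduct, syl] using this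
    · exact sum_eq_zero fun r _ => by
        rw [coeff_C_mul, coeff_eq_zero_of_natDegree_lt
          ((natDegree_row hP hF r).trans_le (not_lt.mp hn)), mul_zero]
  simpa only [pol, Fintype.sum_sum_type, AI.row, Sum.elim_inl, Sum.elim_inr, ← mul_assoc, ← sum_mul]
    using h3

variable {ι : Type} [Fintype ι]

lemma mvFil_homog {K : Type} [Field K] (Φ : Fil K) {s : Set ι} {x X δ : ι → K}
    (hδ : ∀ i, δ i ≠ 0) (hx : ∀ i ∈ s, x i = X i / δ i) {m m0 c : ℕ} {r r0 : ℝ}
    (hX : ∀ i, X i ∈ Φ.F m r) (hδ' : ∀ i, δ i ∈ Φ.F m r) {p : MvPolynomial ι K}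
    (hp : ∀ μ ∈ p.support, (∀ i, μ i ≤ c) ∧ (∀ i ∉ s, μ i = 0) ∧ p.coeff μ ∈ Φ.F m0 r0) :
    (∏ i, δ i ^ c) * MvPolynomial.eval x p ∈
      Φ.F (m0 + Fintype.card ι * (c * m)) (r0 + Fintype.card ι * (c * r)) := by
  rw [MvPolynomial.eval_eq', mul_sum]
  refine AddSubgroup.sum_mem _ fun μ hμ => ?_
  obtain ⟨h1, h2, h3⟩ := hp μ hμ
  rw [mul_left_comm (∏ i, δ i ^ c), ← prod_mul_distrib]
  refine Φ.mul h3 ?_
  have := Φ.prod univ (f := fun i => δ i ^ c * x i ^ μ i) (m := c * m) (r := fun _ => c * r)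
    fun i _ => by
      have e : δ i ^ c * x i ^ μ i = X i ^ μ i * δ i ^ (c - μ i) := by
        by_cases h : i ∈ s
        · rw [hx i h, pow_mul_div_pow (hδ i) _ (h1 i)]
        · simp [h2 i h]
      have h4 := Φ.mul (Φ.pow (hX i) (μ i)) (Φ.pow (hδ' i) (c - μ i))
      rwa [← add_mul, ← add_mul, ← Nat.cast_add, Nat.add_sub_cancel' (h1 i), ← e] at h4
  simpa using this

variable [DecidableEq ι]

/-- A polynomial in several variables as a polynomial in one of them. -/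
noncomputable def toPoly (i0 : ι) : MvPolynomial ι R →ₐ[R] (MvPolynomial ι R)[X] :=
  MvPolynomial.aeval fun i => if i = i0 then X else C (MvPolynomial.X i)

omit [Fintype ι] in
lemma eval₂_toPoly {S : Type} [CommRing S] (i0 : ι) (φ : MvPolynomial ι R →+* S)
    (G : MvPolynomial ι R) : (toPoly i0 G).eval₂ φ (φ (MvPolynomial.X i0)) = φ G := by
  have : (eval₂RingHom φ (φ (MvPolynomial.X i0))).comp (toPoly i0).toRingHom = φ := by
    refine MvPolynomial.ringHom_ext (fun r => by simp [toPoly]) fun i => ?_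
    by_cases h : i = i0 <;> simp [toPoly, h]
  exact RingHom.congr_fun this G

lemma toPoly_monomial (i0 : ι) (μ : ι →₀ ℕ) (a : R) : toPoly i0 (MvPolynomial.monomial μ a) =
    C (MvPolynomial.monomial (μ.erase i0) a) * X ^ μ i0 := by
  have h1 : ∀ ν : ι →₀ ℕ, ν i0 = 0 →
      toPoly i0 (MvPolynomial.monomial ν a) = C (MvPolynomial.monomial ν a) := fun ν hν => by
    rw [toPoly, MvPolynomial.aeval_monomial, MvPolynomial.monomial_eq,
      Finsupp.prod_fintype _ _ (by simp), Finsupp.prod_fintype _ _ (by simp), map_mul, map_prod]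
    refine congrArg₂ _ rfl (prod_congr rfl fun i _ => ?_)
    by_cases h : i = i0 <;> simp [h, hν]
  conv_lhs => rw [← μ.erase_add_single i0, MvPolynomial.monomial_add_single]
  rw [map_mul, h1 _ Finsupp.erase_same, map_pow]
  simp [toPoly]

lemma toPoly_mem {Φ : Fil R} {s : Set ι} {i0 : ι} {m : ℕ} {r : ℝ} {G : MvPolynomial ι R}
    (h : G ∈ (mvFil Φ (insert i0 s)).F m r) : (toPoly i0 G).natDegree ≤ m ∧
      ∀ n, (toPoly i0 G).coeff n ∈ (mvFil Φ s).F m r := by
  rw [G.as_sum, map_sum]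
  simp only [toPoly_monomial]
  refine ⟨natDegree_sum_le_of_forall_le _ _ fun μ hμ =>
    (natDegree_C_mul_X_pow_le _ _).trans ((h μ hμ).1 i0), fun n => ?_⟩
  rw [finsetSum_coeff]
  refine AddSubgroup.sum_mem _ fun μ hμ => ?_
  rw [coeff_C_mul_X_pow]
  split_ifs
  · refine monomial_mem_mvFil (fun i => ?_) (fun i hi => ?_) (h μ hμ).2.2 <;>
      rw [Finsupp.erase_apply] <;> split_ifs with h1
    exacts [Nat.zero_le _, (h μ hμ).1 i, rfl, (h μ hμ).2.1 i (by simp [h1, hi])]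
  · exact zero_mem _

end alg

variable {ι : Type} {U : Ultrafilter ℕ} {q : ℕ → ℝ} {hq : Tendsto q U atTop} {b : ι → ℕ}

lemma small_or {u v : UP U} {r r' : ℝ} (h : u * v ∈ small hq (r + r')) :
    u ∈ small hq r ∨ v ∈ small hq r' := by
  obtain ⟨f, rfl⟩ := germ_surj u
  obtain ⟨g, rfl⟩ := germ_surj v
  rw [← map_mul] at h
  refine or_iff_not_imp_left.mpr fun h1 => germ_small.mpr fun ε hε => ?_
  obtain ⟨η, hη, h2⟩ : ∃ η > 0, ∀ᶠ k in U, exp ((r + η) * q k) < |(f k : ℝ)| := by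
    by_contra! hc
    refine h1 (germ_small.mpr fun η hη => ?_)
    exact hc η hη
  filter_upwards [h2, h _ rfl ε hε, hq.eventually_ge_atTop 0] with k h3 h4 h5
  rw [Pi.mul_apply, Rat.cast_mul, abs_mul,
    show (r + r' + ε) * q k = r * q k + (r' + ε) * q k by ring, exp_add] at h4
  have h6 : exp (r * q k) ≤ |(f k : ℝ)| :=
    (exp_le_exp.mpr (mul_le_mul_of_nonneg_right (by linarith) h5)).trans h3.le
  exact le_of_mul_le_mul_left ((mul_le_mul_of_nonneg_right h6 (abs_nonneg _)).trans h4) (exp_pos _)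

lemma small_mono {x : UP U} {r r' : ℝ} (h : r ≤ r') (hx : x ∈ small hq r) : x ∈ small hq r' :=
  (smK hq).mono (m := 0) (m' := 0) le_rfl h hx

lemma Rel.mono {x : ι → UP U} {s : Set ι} {c c' : ℕ} {K K' : ℝ} (h : Rel hq x s c K) (h1 : c ≤ c')
    (h2 : K' ≤ K) : Rel hq x s c' K' :=
  h.imp fun _ h => ⟨h.1, Fil.mono _ h1 (by exact_mod_cast h1) h.2.1,
    small_mono (neg_le_neg h2) h.2.2⟩

lemma App.mono {x : UP U} {c c' : ℕ} {K K' : ℝ} (h : App hq x c K) (h1 : c ≤ c')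
    (h2 : K' ≤ K) : App hq x c' K' :=
  h.imp fun _ h => ⟨h.1, h.2.1.trans h1, fun n => Fil.mono _ le_rfl (by exact_mod_cast h1)
    (h.2.2.1 n), small_mono (neg_le_neg h2) h.2.2.2⟩

lemma Rep.inl {a : ℕ} {J J' : Type} {W : J → ℕ → ℤ} (W' : J' → ℕ → ℤ) {x : UP U}
    (h : Rep U q a W x) : Rep U q a (Sum.elim W W') x := by
  obtain ⟨T, _, s, e, j0, ex, B, h0, hB, rfl⟩ := h
  exact ⟨T, inferInstance, s, fun t => .inl (e t), .inl j0, ex, B, h0, hB, rfl⟩

variable [Fintype ι]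

lemma eval_small {s : Set ι} {x : ι → UP U} (hx : ∀ i, x i ∈ small hq 0) {m : ℕ} {r : ℝ}
    {p : MvPolynomial ι (UP U)} (hp : p ∈ (mvFil (zs hq) s).F m r) :
    MvPolynomial.eval x p ∈ small hq r := by
  simpa [smK] using mvFil_homog (smK hq) (s := s) (x := x) (X := x) (δ := 1) (m := 0) (m0 := 0)
    (r := 0) (by simp) (by simp) hx (fun _ => (smK hq).one)
    fun μ hμ => ⟨(hp μ hμ).1, (hp μ hμ).2.1, (hp μ hμ).2.2.2⟩

variable [DecidableEq ι]

lemma Rep.frac (hb : ∀ i, b i ≠ 0) {i i0 : ι} (hi : i ≠ i0) {J : Type} [Fintype J]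
    {W : J → ℕ → ℤ} {c : ℝ} (hW : ∀ j, ∀ᶠ k in U, |(W j k : ℝ)| ≤ exp (c * q k)) {x : UP U}
    (h : Rep U q (b i) W x) : ∃ X δ : UP U, δ ≠ 0 ∧ δ⁻¹ ∈ (smK hq).F 0 0 ∧ x = X / δ ∧
      (∀ σ, X ∈ (cls q hb i0 (fun j => germ U fun k => W j k) σ).F 1 0 ∧
        δ ∈ (cls q hb i0 (fun j => germ U fun k => W j k) σ).F 1 0) ∧
      X ∈ (smK hq).F 0 c ∧ δ ∈ (smK hq).F 0 c := by
  obtain ⟨T, _, s, e, j0, ex, ρ, h0, hρ0, hγ, hx⟩ := h.unpack hq
  refine ⟨_, _, germ_ne h0, inv_small h0, hx, fun σ => ⟨Submodule.sum_mem (clsS q b i0 _ σ 1 0)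
    fun t _ => Submodule.smul_mem _ _ (cls_term (hγ t) (by simp [hi.symm]) _),
    word_cls hb (fun j => germ U fun k => W j k) i0 σ j0⟩, Submodule.sum_mem (small hq c)
    fun t _ => Submodule.smul_mem _ _ ?_, word_small hq (hW _)⟩
  refine (smK hq).mono (m' := 0) le_rfl ?_ ((smK hq).mul (gmr_small hb (hγ t)) (word_small hq (hW _)))
  rw [sum_eq_single i (fun l _ hl => by simp [hl]) (by simp), Pi.single_eq_same]
  nlinarith [hρ0 t, log_natCast_nonneg (b i)]

set_option maxHeartbeats 1000000 in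
theorem step (hb : ∀ i, b i ≠ 0) (hi : ∀ e : ι → ℤ, ∏ i, (b i : ℚ) ^ e i = 1 → e = 0)
    (J : Type) [Fintype J] (c0 : ℝ) {s : Set ι} {i0 : ι} (hs : i0 ∉ s) (d c : ℕ) :
    ∃ c' : ℕ, ∀ K' : ℝ, ∃ K : ℝ,
    ∀ (U : Ultrafilter ℕ) (q : ℕ → ℝ) (hq : Tendsto q U atTop) (W : J → ℕ → ℤ),
      (∀ j, ∀ᶠ k in U, |(W j k : ℝ)| ≤ exp (c0 * q k)) → ∀ x : ι → UP U,
      (∀ i, Rep U q (b i) W (x i)) → (∀ i, x i ∈ small hq 0) →
      ∀ G : (MvPolynomial ι (UP U))[X], G ≠ 0 → G.degree < d →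
      (∀ n, G.coeff n ∈ (mvFil (zs hq) s).F c c) →
      G.eval₂ (MvPolynomial.eval x) (x i0) ∈ small hq (-K) →
      Rel hq x s c' K' ∨ App hq (x i0) c' K' := by
  induction d generalizing c with
  | zero =>
    exact ⟨0, fun _ => ⟨0, fun _ _ _ _ _ _ _ _ G h0 h1 =>
      absurd (degree_eq_bot.mp (Nat.WithBot.lt_zero_iff.mp h1)) h0⟩⟩
  | succ d ih =>
  obtain ⟨c1, hc1⟩ : ∃ c1 : ℝ, c1 = |c0| + c + 1 := ⟨_, rfl⟩
  have hc10 : 0 ≤ c1 := by rw [hc1]; positivity
  have hc2 : 0 ≤ Fintype.card ι * (c * c1) := by positivity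
  obtain ⟨D0, κ, hκ, hcore⟩ := core hb hi i0 (J ⊕ Fin (d + 1) × (ι → Fin (c + 1))) hc10
    (c' := c + Fintype.card ι * (c * c1)) (by positivity) d (1 + Fintype.card ι * (c * 1))
  obtain ⟨c2, hc2'⟩ : ∃ c2 : ℕ, c2 = (d + D0) * (⌈κ⌉₊ + c) := ⟨_, rfl⟩
  obtain ⟨c3, ih⟩ := ih c2
  refine ⟨c2 + c3 + D0 + ⌈κ⌉₊, fun K' => ?_⟩
  obtain ⟨K3, ih⟩ := ih K'
  refine ⟨|K'| + |K3| + c2 + κ + Fintype.card ι * (c * c1),
    fun U q hq W hW x hx hx0 G hG0 hGd hG hGs => ?_⟩
  have hGd' : G.natDegree ≤ d := Nat.lt_succ_iff.mp ((natDegree_lt_iff_degree_lt hG0).mpr hGd)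
  have hco : ∀ n μ, (G.coeff n).coeff μ ∈ (zs hq).F 0 c := fun n μ => by
    by_cases h : μ ∈ (G.coeff n).support
    · exact (hG n μ h).2.2
    · rw [MvPolynomial.notMem_support_iff.mp h]; exact zero_mem _
  choose f hf using fun n μ => (hco n μ).1
  let W' : J ⊕ Fin (d + 1) × (ι → Fin (c + 1)) → ℕ → ℤ :=
    Sum.elim W fun p => f p.1 (Finsupp.equivFunOnFinite.symm fun i => p.2 i)
  have hW' : ∀ j, ∀ᶠ k in U, |(W' j k : ℝ)| ≤ exp (c1 * q k) := by
    rintro (j | p)
    · filter_upwards [hW j, hq.eventually_ge_atTop 0] with k h1 h2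
      refine h1.trans (exp_le_exp.mpr (mul_le_mul_of_nonneg_right ?_ h2))
      linarith [le_abs_self c0, Nat.cast_nonneg (α := ℝ) c]
    · filter_upwards [(hco _ _).2 _ (hf p.1 _) 1 one_pos, hq.eventually_ge_atTop 0] with k h1 h2
      rw [Rat.cast_intCast] at h1
      refine h1.trans (exp_le_exp.mpr (mul_le_mul_of_nonneg_right ?_ h2))
      linarith [abs_nonneg c0]
  have hfr : ∀ i, ∃ X δ : UP U, δ ≠ 0 ∧ δ⁻¹ ∈ (smK hq).F 0 0 ∧ (i ∈ s → x i = X / δ) ∧
      (∀ σ, X ∈ (cls q hb i0 (fun j => germ U fun k => W' j k) σ).F 1 0 ∧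
        δ ∈ (cls q hb i0 (fun j => germ U fun k => W' j k) σ).F 1 0) ∧
      X ∈ (smK hq).F 0 c1 ∧ δ ∈ (smK hq).F 0 c1 := fun i => by
    by_cases h : i = i0
    · exact ⟨1, 1, one_ne_zero, by simpa using (smK hq).one, fun h1 => absurd (h ▸ h1) hs,
        fun σ => ⟨Fil.mono _ zero_le_one le_rfl (Fil.one _), Fil.mono _ zero_le_one le_rfl
          (Fil.one _)⟩, Fil.mono _ le_rfl hc10 (Fil.one _), Fil.mono _ le_rfl hc10 (Fil.one _)⟩
    · obtain ⟨X, δ, h1, h2, h3, h4⟩ := ((hx i).inl _).frac (hq := hq) hb h hW'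
      exact ⟨X, δ, h1, h2, fun _ => h3, h4⟩
  choose X δ hδ hδi hxX hXc hXs hδs using hfr
  obtain ⟨z, ⟨k0, hk0⟩, hz, hdet⟩ := hcore U q hq W' hW' (x i0) ((hx i0).inl _) (hx0 i0)
    (C (∏ i, δ i ^ c) * G.map (MvPolynomial.eval x)) (|K'| + |K3| + c2 + κ)
    ((natDegree_C_mul_le _ _).trans (natDegree_map_le.trans hGd'))
    (fun σ n => by
      rw [coeff_C_mul, coeff_map]
      by_cases hn : n < d + 1
      · simpa using mvFil_homog (cls q hb i0 (fun j => germ U fun k => W' j k) σ) hδ hxX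
          (fun i => (hXc i σ).1) (fun i => (hXc i σ).2) (m0 := 1) (r0 := 0) (p := G.coeff n)
          fun μ hμ => ⟨(hG n μ hμ).1, (hG n μ hμ).2.1, by
            have := word_cls (q := q) hb (fun j => germ U fun k => W' j k) i0 σ
              (.inr (⟨n, hn⟩, fun i => ⟨μ i, Nat.lt_succ_of_le ((hG n μ hμ).1 i)⟩))
            rw [hf]
            simpa [W'] using this⟩
      · rw [coeff_eq_zero_of_natDegree_lt (by omega), map_zero, mul_zero]
        exact zero_mem _)
    (fun n => by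
      rw [coeff_C_mul, coeff_map]
      exact mvFil_homog (smK hq) hδ hxX hXs hδs (m0 := 0)
        fun μ hμ => ⟨(hG n μ hμ).1, (hG n μ hμ).2.1, (hG n μ hμ).2.2.2⟩)
    (by
      rw [eval_C_mul, eval_map]
      refine small_mono ?_ ((smK hq).mul ((smK hq).prod univ (r := fun _ => c * c1)
        fun i _ => (smK hq).pow (hδs i) c) (m' := 0) hGs)
      rw [sum_const, card_univ, nsmul_eq_mul]
      linarith)
  have hP : (pol fun l => (MvPolynomial.C (z l) : MvPolynomial ι (UP U))).map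
      (MvPolynomial.eval x) = pol z := by rw [map_pol]; simp
  have hκc := Nat.le_ceil κ
  have hc0 := Nat.cast_nonneg (α := ℝ) c
  have hent : ∀ r l, syl d D0 (pol fun l => (MvPolynomial.C (z l) : MvPolynomial ι (UP U))) G r l ∈
      (mvFil (zs hq) s).F (⌈κ⌉₊ + c) (⌈κ⌉₊ + c : ℕ) :=
    syl_mem (A := fun _ => (mvFil (zs hq) s).F (⌈κ⌉₊ + c) (⌈κ⌉₊ + c : ℕ))
      (fun _ => coeff_pol_mem fun l => monomial_mem_mvFil (μ := 0) (by simp) (by simp)
        (Fil.mono _ le_rfl (by push_cast; linarith) (hz l)))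
      fun _ n => Fil.mono _ (by omega) (by push_cast; linarith) (hG n)
  by_cases h0 : (syl d D0 (pol fun l => (MvPolynomial.C (z l) : MvPolynomial ι (UP U))) G).det = 0
  · obtain ⟨v, hv0, hv, hvm⟩ := exists_ker _ (Nat.cast_nonneg _) hent h0
    simp only [Fintype.card_sum, Fintype.card_fin, ← Nat.cast_mul, ← hc2'] at hvm
    have h1 := syl_rel (natDegree_pol _) hGd' hv
    have hA : (pol fun i => v (.inl i)) ≠ 0 := fun h => hv0 (funext fun r => by
      rw [h, zero_mul, zero_add] at h1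
      rcases r with i | j
      exacts [eq_zero_of_sum h i, eq_zero_of_sum ((mul_eq_zero.mp h1).resolve_right hG0) j])
    have h2 := congrArg (eval₂ (MvPolynomial.eval x) (x i0)) h1
    rw [eval₂_add, eval₂_mul, eval₂_mul, eval₂_zero, add_eq_zero_iff_eq_neg, mul_comm,
      ← eval_map _ (x i0), hP] at h2
    have h3 : (pol fun j => v (.inr j)).eval₂ (MvPolynomial.eval x) (x i0) ∈ small hq c2 := by
      rw [← eval_map, map_pol, eval_pol]
      refine Submodule.sum_mem _ fun j _ => small_mono ?_ ((smK hq).mul (m := 0)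
        (eval_small hx0 (hvm _)) ((smK hq).pow (m := 0) (hx0 i0) j))
      simp
    rcases small_or (hq := hq) (r := -|K'|) (r' := -|K3|) (h2 ▸ neg_mem (small_mono (by linarith)
      ((smK hq).mul (m := 0) (m' := 0) h3 hGs))) with h4 | h4
    · refine Or.inr ⟨pol z, fun h => hk0 (eq_zero_of_sum h k0), (natDegree_pol _).trans (by omega),
        coeff_pol_mem fun l => Fil.mono _ le_rfl ?_ (hz l),
        small_mono (neg_le_neg (le_abs_self _)) h4⟩
      push_cast
      linarith [Nat.cast_nonneg (α := ℝ) c2, Nat.cast_nonneg (α := ℝ) c3,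
        Nat.cast_nonneg (α := ℝ) D0]
    · exact (ih U q hq W hW x hx hx0 _ hA (degree_sum_fin_lt _) (coeff_pol_mem fun l => hvm _)
        (small_mono (neg_le_neg (le_abs_self _)) h4)).imp (fun h => h.mono (by omega) le_rfl)
        fun h => h.mono (by omega) le_rfl
  · refine Or.inl (Rel.mono (c := c2) ⟨_, h0, ?_, ?_⟩ (by omega) le_rfl)
    · have := (mvFil (zs hq) s).det (m := ⌈κ⌉₊ + c) (α := fun _ => (⌈κ⌉₊ + c : ℕ))
        (γ := fun _ => 0) fun r l => by rw [add_zero]; exact hent r l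
      simpa only [hc2', sum_const, card_univ, Fintype.card_sum, Fintype.card_fin, nsmul_eq_mul,
        mul_zero, add_zero, Nat.cast_mul] using this
    · have h1 := (smK hq).mul ((smK hq).pow ((smK hq).prod univ (r := fun _ => c * 0)
        fun i _ => (smK hq).pow (hδi i) c) D0) (m' := 0) hdet
      simp only [inv_pow, prod_inv_distrib] at h1
      rw [det_syl_C_mul, inv_mul_cancel_left₀ (pow_ne_zero _ (prod_ne_zero_iff.mpr fun i _ =>
        pow_ne_zero _ (hδ i))), ← hP, ← map_det_syl] at h1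
      refine small_mono ?_ h1
      simp only [mul_zero, sum_const_zero, zero_add]
      linarith [le_abs_self K', abs_nonneg K3, Nat.cast_nonneg (α := ℝ) c2]

omit [DecidableEq ι] in
theorem claim (b : ι → ℕ) (hb : ∀ i, 2 ≤ b i)
    (hind : ∀ n : ι → ℤ, ∏ i, (b i : ℚ) ^ n i = 1 → n = 0) : Claim b := by
  classical
  intro J _ c0 s
  induction s, s.toFinite using Set.Finite.induction_on with
  | empty =>
    refine fun c => ⟨0, fun _ => ⟨1, fun U q hq W _ x _ _ ⟨G, h0, h1, h2⟩ => ?_⟩⟩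
    have h3 : ∀ μ ∈ G.support, μ = 0 := fun μ hμ => Finsupp.ext fun i => (h1 μ hμ).2.1 i (by simp)
    obtain ⟨μ, hμ⟩ := MvPolynomial.support_nonempty.mpr h0
    obtain rfl := h3 μ hμ
    obtain ⟨f, hf⟩ := (h1 0 hμ).2.2.1
    rw [MvPolynomial.eval_eq', sum_eq_single_of_mem 0 hμ fun ν hν h => absurd (h3 ν hν) h] at h2
    simp only [Finsupp.coe_zero, Pi.zero_apply, pow_zero, prod_const_one, mul_one] at h2
    have h4 : ¬ ∀ᶠ k in U, (f k : ℚ) = 0 := by
      rw [← germ_eq_zero, ← hf]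
      exact MvPolynomial.mem_support_iff.mp hμ
    obtain ⟨k, h5, h6, h7⟩ := ((Ultrafilter.eventually_not.mpr h4).and
      ((h2 _ hf (1 / 2) (by norm_num)).and (hq.eventually_gt_atTop 0))).exists
    have h8 : (1 : ℝ) ≤ |((f k : ℚ) : ℝ)| := by exact_mod_cast Int.one_le_abs (by exact_mod_cast h5)
    exact absurd (h8.trans h6) (not_le.mpr (exp_lt_one_iff.mpr (by linarith)))
  | @insert i0 s hs _ ih =>
    intro c
    obtain ⟨c1, h1⟩ := step (fun i => by have := hb i; omega) hind J c0 hs (c + 1) c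
    obtain ⟨c2, h2⟩ := ih c1
    refine ⟨c1 + c2, fun K' => ?_⟩
    obtain ⟨K2, h2⟩ := h2 K'
    obtain ⟨K1, h1⟩ := h1 (max K' K2)
    refine ⟨K1, fun U q hq W hW x hx hx0 ⟨G, hG0, hG, hGs⟩ => ?_⟩
    have h3 : toPoly i0 G ≠ 0 := fun h => hG0 (by
      simpa [h] using (eval₂_toPoly i0 (RingHom.id _) G).symm)
    rcases h1 U q hq W hW x hx hx0 _ h3 ((natDegree_lt_iff_degree_lt h3).mp
      (Nat.lt_succ_of_le (toPoly_mem hG).1)) (toPoly_mem hG).2 (by
        have := eval₂_toPoly i0 (MvPolynomial.eval x) G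
        rw [MvPolynomial.eval_X] at this
        rwa [this]) with h4 | h4
    · obtain ⟨i, h5, h6⟩ := h2 U q hq W hW x hx hx0 (h4.mono le_rfl (le_max_right _ _))
      exact ⟨i, Or.inr h5, h6.mono (by omega) le_rfl⟩
    · exact ⟨i0, Or.inl rfl, h4.mono (by omega) (le_max_left _ _)⟩

end Pool.Agent.Lib.MP_c9a594_an.AR
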