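import Pool.Agent.Lib.MP_c9a594_an.AR.Units

/-! The separation lemma and the exponent filtration for finitely many bases. -/

open Filter Topology Real Finset Pool.Agent.Subspace MvPolynomial

namespace Pool.Agent.Lib.MP_c9a594_an.AR

open AI

variable {ι : Type} [Fintype ι] {U : Ultrafilter ℕ} {q : ℕ → ℝ}

variable (U q) in
/-- Units times words, with the rate of the exponent of the base `i0` on one side of `r`. -/
noncomputable def uwr (b : ι → ℕ) (i0 : ι) {J : Type} (V : J → UP U) (σ r : ℝ) :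
    Submodule ℚ (UP U) :=
  Submodule.span ℚ {z | ∃ (γ : ℕ → ι → ℤ) (ξ : ι → ℝ) (j : J), σ * ξ i0 ≤ r ∧ Rt U q γ ξ ∧
    z = gmr U b γ * V j}

theorem sep_ultraR (b : ι → ℕ) (hb : ∀ i, b i ≠ 0)
    (hi : ∀ e : ι → ℤ, ∏ i, (b i : ℚ) ^ e i = 1 → e = 0) (i0 : ι) (J : Type) [Fintype J] (c : ℝ) :
    ∃ κ : ℝ, 0 < κ ∧ ∀ (U : Ultrafilter ℕ) (q : ℕ → ℝ) (hq : Tendsto q U atTop) (V : J → ℕ → ℤ),
      (∀ j, ∀ᶠ k in U, |(V j k : ℝ)| ≤ exp (c * q k)) → ∀ (K : ℝ) (x x' : UP U),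
      x ∈ uwr U q b i0 (fun j => germ U fun k => V j k) (-1) 0 →
      x' ∈ uwr U q b i0 (fun j => germ U fun k => V j k) 1 (-κ) →
      x - x' ∈ small hq (-K) → x ∈ small hq (κ - K) := by
  set ω := ∏ i, b i with hωd
  have hω : ω ≠ 0 := prod_ne_zero_iff.mpr fun i _ => hb i
  set S := ω.primeFactors
  have hS : ∀ p ∈ S, p.Prime := fun p => Nat.prime_of_mem_primeFactors
  have hωS : ∀ p, p.Prime → p ∣ ω → p ∈ S := fun p hp h => Nat.mem_primeFactors.mpr ⟨hp, h, hω⟩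
  obtain ⟨C0, hC0, hCr⟩ := exists_cramerR hS hb hi hωS
  set κ0 := kap (Fintype.card J) (Fintype.card (Option S)) |c| 0
  have hκ0 : 0 ≤ κ0 := by simp only [κ0, kap]; positivity
  obtain ⟨M0, hM0⟩ := exists_nat_gt (κ0 / log 2)
  rw [div_lt_iff₀ (log_pos one_lt_two)] at hM0
  have hl : 0 ≤ M0 * log ω := mul_nonneg (Nat.cast_nonneg _) (log_natCast_nonneg _)
  have hCκ : 0 ≤ C0 * (2 * κ0) := by positivity
  refine ⟨κ0 + M0 * log ω + C0 * (2 * κ0) + 1, by positivity,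
    fun U q hq V hV K x x' hx hx' hΛ => ?_⟩
  obtain ⟨n, s, z, hz⟩ := Submodule.mem_span_set'.mp hx
  obtain ⟨n', s', z', hz'⟩ := Submodule.mem_span_set'.mp hx'
  choose γ1 ξ1 e h1 h2 h4 using fun t => (z t).2
  choose γ2 ξ2 e' h1' h2' h4' using fun t => (z' t).2
  let γ : Fin n ⊕ Fin n' → ℕ → ι → ℤ := Sum.elim γ1 γ2
  have hγ : ∀ t, γ t ∈ tameR U q := by
    rintro (t | t)
    exacts [⟨_, h2 t⟩, ⟨_, h2' t⟩]
  obtain ⟨r, g, u, u0, c0, hg, hgi, hu⟩ := exists_monomialsR hb γ hγ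
  let X := ctxU hS hq hω hωS
  have hXo : X.ord = ordU U hS q := rfl
  have hgO : ∀ j, gmr U b (g j) ∈ X.O := fun j => gmr_mem hq hb (hg j)
  have hwt : ∀ t w, X.wt (fun j => gmr U b (g j)) w (u t) - X.wt (fun j => gmr U b (g j)) w u0
      = X.ord w (gmr U b (γ t)) := fun t w => by
    have h1 := congrArg (X.ord w) (hu t)
    rw [X.ord_mul w _ (X.mon_mem hgO _) _ (gmr_mem hq hb (hγ t)),
      X.ord_mul w _ (gmr_mem hq hb ⟨_, Rt.const hq _⟩) _ (X.mon_mem hgO _), X.ord_mon hgO,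
      X.ord_mon hgO, hXo, ordU_gmr hb (Rt.const hq _)] at h1
    simp only [Pi.zero_apply, zero_mul, sum_const_zero] at h1
    rw [hXo]
    linarith
  let Vb : J → UP U := fun j => germ U fun k => V j k
  have hVb : ∀ j, Vb j = 0 ∨ Vb j ∈ X.O ∧ ∀ v, |X.ord v (Vb j)| ≤ |c| := fun j =>
    (int_mem_or hq (hV j)).imp_right fun h =>
      ⟨int_mem hq h, fun v => (abs_ordU_int hq h v).trans (le_abs_self c)⟩
  have hx1 : x = ∑ t, s t • (gmr U b (γ (.inl t)) * Vb (e t)) := by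
    rw [← hz]; exact sum_congr rfl fun t _ => congrArg (s t • ·) (h4 t)
  have hx2 : x' = ∑ t, s' t • (gmr U b (γ (.inr t)) * Vb (e' t)) := by
    rw [← hz']; exact sum_congr rfl fun t _ => congrArg (s' t • ·) (h4' t)
  have hmul : ∀ {T : Type} [Fintype T] (σ : T → ℚ) (τ : T → Fin n ⊕ Fin n') (z : T → UP U),
      mon (fun j => gmr U b (g j)) u0 * ∑ t, σ t • (gmr U b (γ (τ t)) * z t) =
      ∑ t, (σ t * ∏ i, (b i : ℚ) ^ c0 (τ t) i) •
        (mon (fun j => gmr U b (g j)) (u (τ t)) * z t) := by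
    intro T _ σ τ z
    rw [mul_sum]
    exact sum_congr rfl fun t _ => by
      rw [mul_smul_comm, ← mul_assoc, hu, mul_assoc, gmr_const, smul_smul]
  have hor : ∀ {T : Type} [Fintype T] (σ : T → ℚ) (τ : T → Fin n ⊕ Fin n') (ε : T → J),
      ∃ d : ℤ, d ≠ 0 ∧ ((d : ℚ) • ∑ t, σ t • (gmr U b (γ (τ t)) * Vb (ε t)) = 0 ∨
      (d : ℚ) • ∑ t, σ t • (gmr U b (γ (τ t)) * Vb (ε t)) ∈ tameO U q ω) := by
    intro T _ σ τ ε
    refine sum_induction _
      (fun z => ∃ d : ℤ, d ≠ 0 ∧ ((d : ℚ) • z = 0 ∨ (d : ℚ) • z ∈ tameO U q ω)) ?_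
      ⟨1, one_ne_zero, Or.inl (smul_zero _)⟩ fun t _ => ⟨(σ t).den, by simp, ?_⟩
    · rintro x y ⟨d, hd, h⟩ ⟨d', hd', h'⟩
      refine ⟨d * d', mul_ne_zero hd hd', ?_⟩
      rw [smul_add, Int.cast_mul, mul_smul _ _ y, mul_comm, mul_smul]
      exact add_mem_or hq hω (zsmul_mem_or hq _ h) (zsmul_mem_or hq _ h')
    · rw [smul_smul, Int.cast_natCast, mul_comm, Rat.mul_den_eq_num]
      exact zsmul_mem_or hq _ (mul_mem_or (Or.inr (gmr_mem hq hb (hγ _)))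
        ((hVb _).imp_right And.left))
  obtain ⟨d1, hd1, hor1⟩ := hor s .inl e
  obtain ⟨d2, hd2, hor2⟩ := hor s' .inr e'
  rw [← hx1] at hor1
  rw [← hx2] at hor2
  set d0 : ℚ := d1 * d2 with hd0
  have hd00 : d0 ≠ 0 := by rw [hd0]; exact_mod_cast mul_ne_zero hd1 hd2
  obtain ⟨Q, hQ0, hQ, hQP⟩ := X.sep none hgO
    (fun j => gmr_neg (b := b) (g j) ▸ gmr_mem hq hb (Submodule.neg_mem _ (hg j)))
    (fun j => sum_ordU_gmr hb hωS (hg j)) (aeval_gmr_injective hb hi hgi) Vb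
    (abs_nonneg c) hVb e e' _ _ (fun t => u (.inl t))
    (fun t => u (.inr t)) u0 (d0 • x) (d0 • (x - x'))
    (by rw [hx1, Finset.smul_sum]; simp only [smul_smul]; rw [hmul])
    (by rw [← smul_sub, sub_sub_cancel, hx2, Finset.smul_sum]; simp only [smul_smul]; rw [hmul])
    (Kc := K) (by
      have h1 : d0 • (x - x') = 0 ∨ d0 • (x - x') ∈ tameO U q ω := by
        have := add_mem_or hq hω (zsmul_mem_or hq d2 hor1) (zsmul_mem_or hq (-d1) hor2)
        rwa [smul_smul, smul_smul, Int.cast_neg, neg_mul, mul_comm (d2 : ℚ), neg_smul,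
          ← sub_eq_add_neg, ← smul_sub] at this
      refine h1.imp_right fun h => ⟨h, ?_⟩
      have h5 := Submodule.smul_mem _ d0 hΛ
      obtain ⟨f, hf⟩ := germ_surj (d0 • (x - x'))
      rw [← hf] at h h5 ⊢
      exact le_of_forall_pos_le_add fun ε hε => ordU_le hq hω h none (h5 f rfl ε hε))
    (fun t t' h => by
      have h5 := hCr (ξ1 t - ξ2 t') (2 * κ0) (fun v => by
        have := h v
        rw [← sub_sub_sub_cancel_right _ _ (X.wt (fun j => gmr U b (g j)) v u0), hwt, hwt, hXo,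
          ordU_gmr (γ := γ (.inl t)) hb (h2 t), ordU_gmr (γ := γ (.inr t')) hb (h2' t')] at this
        simpa only [Pi.sub_apply, sub_mul, sum_sub_distrib] using this) i0
      rw [Pi.sub_apply] at h5
      linarith [le_abs_self (ξ1 t i0 - ξ2 t' i0), h1 t, h1' t'])
  let W := gmr U b fun k _ => M0 * ⌈q k⌉₊
  have hlim : Rt U q (fun k (_ : ι) => (M0 * ⌈q k⌉₊ : ℤ)) fun _ => M0 := fun _ => by
    have h5 : Tendsto (fun k => (⌈q k⌉₊ : ℝ) / q k) U (𝓝 1) :=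
      (tendsto_nat_ceil_div_atTop (R := ℝ)).comp hq
    simpa [mul_div_assoc] using h5.const_mul (M0 : ℝ)
  have hWO : W ∈ X.O := gmr_mem hq hb ⟨_, hlim⟩
  have hWo : ∀ v z, z ∈ X.O → ordU U hS q v (W * z) =
      M0 * log (plAbs S hS v ω) + X.ord v z := fun v z hz => by
    rw [← hXo, X.ord_mul v _ hWO _ hz, hXo, ordU_gmr hb hlim, ← mul_sum, hωd, Nat.cast_prod,
      map_prod, log_prod fun i _ => (plAbs S hS v).ne_zero (by exact_mod_cast hb i)]
  obtain ⟨d, f, hd, hf⟩ : ∃ (d : ℤ) (f : ℕ → ℤ), d ≠ 0 ∧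
      (d : ℚ) • (W * Q) = germ U fun k => f k := by
    refine exists_int_of_span (mul_mem_of_span (fun z hz => Submodule.subset_span ?_) hQ)
    refine exists_int (hS := hS) hq hω hωS (X.O.mul_mem hWO hz.1) fun p => ?_
    rw [hWo _ _ hz.1, log_plAbs_nat hω]
    have h1 : (1 : ℝ) ≤ ω.factorization p := by
      exact_mod_cast (hS p p.2).factorization_pos_of_dvd hω (Nat.dvd_of_mem_primeFactors p.2)
    have h2 : log 2 ≤ log ((p : ℕ) : ℝ) := log_le_log two_pos (by exact_mod_cast (hS p p.2).two_le)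
    have h3 := mul_le_mul h1 h2 (log_pos one_lt_two).le (zero_le_one.trans h1)
    have h4 := mul_le_mul_of_nonneg_left h3 (Nat.cast_nonneg (α := ℝ) M0)
    linarith [abs_le.mp (hz.2 (some p))]
  have hsm : W * (Q * (d0 • x)) ∈ small hq (κ0 - K + M0 * log ω) := by
    refine mul_mem_of_span
      (fun z hz => mem_small (hS := hS) hq hω (X.O.mul_mem hWO hz.1) ?_) hQP
    rw [hWo _ _ hz.1, plAbs_none]
    simp only [Rat.cast_natCast, Nat.abs_cast]
    linarith [hz.2]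
  have h5 : ¬ ∀ᶠ k in U, (f k : ℚ) = 0 := by
    rw [← germ_eq_zero, ← hf]
    exact smul_ne_zero (by exact_mod_cast hd) (mul_ne_zero (gmr_ne_zero hb _) hQ0)
  rintro y rfl ε hε
  have h6 := Submodule.smul_mem _ (d / d0 : ℚ) hsm
  have e1 : (d / d0 : ℚ) • (W * (Q * (d0 • germ U y))) = germ U fun k => f k * y k := by
    rw [mul_smul_comm, mul_smul_comm, smul_smul, div_mul_cancel₀ _ hd00, ← mul_assoc,
      ← smul_mul_assoc, hf, ← map_mul]
    rfl
  filter_upwards [h6 _ e1 ε hε, Ultrafilter.eventually_not.mpr h5, hq.eventually_ge_atTop 0]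
    with k h7 h8 h9
  have h10 : (1 : ℝ) ≤ |(f k : ℝ)| := by exact_mod_cast Int.one_le_abs (by exact_mod_cast h8)
  rw [Rat.cast_mul, abs_mul, Rat.cast_intCast] at h7
  refine (le_mul_of_one_le_left (abs_nonneg _) h10).trans (h7.trans (exp_le_exp.mpr ?_))
  exact mul_le_mul_of_nonneg_right (by linarith) h9

variable {b : ι → ℕ} {hq : Tendsto q U atTop}

lemma gmr_small (hb : ∀ i, b i ≠ 0) {γ : ℕ → ι → ℤ} {ξ : ι → ℝ} (h : Rt U q γ ξ) :
    gmr U b γ ∈ (smK hq).F 0 (∑ i, ξ i * log (b i)) := by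
  refine mem_small (S := ∅) (hS := by simp) hq (prod_ne_zero_iff.mpr fun i _ => hb i)
    (gmr_mem hq hb ⟨_, h⟩) ?_
  rw [ordU_gmr hb h]
  simp [plAbs_none]

variable {J : Type} [Fintype J]

variable (q b) in
/-- Units times monomials in the words. -/
noncomputable def clsS (i0 : ι) (W : J → UP U) (σ : ℝ) (m : ℕ) (r : ℝ) : Submodule ℚ (UP U) :=
  Submodule.span ℚ {z | ∃ (γ : ℕ → ι → ℤ) (ξ : ι → ℝ) (μ : J → ℕ), (∀ j, μ j ≤ m) ∧
    σ * ξ i0 ≤ r ∧ Rt U q γ ξ ∧ z = gmr U b γ * ∏ j, W j ^ μ j}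

variable (q) in
/-- The filtration by the exponent of the base `i0`. -/
noncomputable def cls (hb : ∀ i, b i ≠ 0) (i0 : ι) (W : J → UP U) (σ : ℝ) : Fil (UP U) where
  F m r := (clsS q b i0 W σ m r).toAddSubgroup
  one := Submodule.subset_span ⟨0, 0, 0, by simp, by simp, Rt.zero, by simp [gmr_zero]⟩
  mul := by
    intro m m' r r' x y hx hy
    have := Submodule.mul_mem_mul hx hy
    rw [clsS, clsS, Submodule.span_mul_span] at this
    refine Submodule.span_mono ?_ this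
    rintro _ ⟨_, ⟨γ, ξ, μ, h1, h2, h3, rfl⟩, _, ⟨γ', ξ', μ', h1', h2', h3', rfl⟩, rfl⟩
    refine ⟨γ + γ', _, μ + μ', fun j => add_le_add (h1 j) (h1' j), ?_, h3.add h3', ?_⟩
    · rw [Pi.add_apply]; linarith
    · simp only [gmr_add hb, Pi.add_apply, pow_add, prod_mul_distrib]
      ring
  mono := by
    intro m m' r r' x h h' hx
    refine Submodule.span_mono ?_ hx
    rintro _ ⟨γ, ξ, μ, h1, h2, h3, rfl⟩
    exact ⟨γ, ξ, μ, fun j => (h1 j).trans h, h2.trans h', h3, rfl⟩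

lemma cls_term {i0 : ι} {W : J → UP U} {σ : ℝ} {γ : ℕ → ι → ℤ} {ξ : ι → ℝ} (h : Rt U q γ ξ)
    (h' : σ * ξ i0 ≤ 0) (j : J) : gmr U b γ * W j ∈ clsS q b i0 W σ 1 0 := by
  classical
  refine Submodule.subset_span ⟨γ, ξ, Pi.single j 1, fun i => ?_, h', h, ?_⟩
  · rw [Pi.single_apply]; split_ifs <;> omega
  · rw [prod_eq_single j (fun i _ hi => by simp [hi]) (by simp)]; simp

lemma cls_le_uwr (i0 : ι) (W : J → ℕ → ℤ) (σ : ℝ) (m : ℕ) (r : ℝ) :
    clsS q b i0 (fun j => germ U fun k => W j k) σ m r ≤ uwr U q b i0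
      (fun μ : J → Fin (m + 1) => germ U fun k => (∏ j, W j k ^ (μ j : ℕ) : ℤ)) σ r := by
  refine Submodule.span_mono ?_
  rintro _ ⟨γ, ξ, μ, h1, h2, h3, rfl⟩
  refine ⟨γ, ξ, fun j => ⟨μ j, Nat.lt_succ_of_le (h1 j)⟩, h2, h3, ?_⟩
  simp only [← map_pow, ← map_prod]
  congr 2
  ext k
  simp

end Pool.Agent.Lib.MP_c9a594_an.AR
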