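import Pool.Agent.Lib.MP_c9a594_an.AR.Defs
import Pool.Agent.Lib.MP_c9a594_an.AR.Sep
import Pool.Agent.Lib.MP_c9a594_an.AI.Siegel

/-! The Sylvester determinant of a small polynomial and the auxiliary polynomial is small. -/

open Filter Topology Real Finset Polynomial

namespace Pool.Agent.Lib.MP_c9a594_an.AR

open AI

variable {ι : Type} [Fintype ι] [DecidableEq ι] {U : Ultrafilter ℕ} {q : ℕ → ℝ} {b : ι → ℕ}

lemma Rep.unpack (hq : Tendsto q U atTop) {i : ι} {J : Type} {W : J → ℕ → ℤ} {x : UP U}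
    (h : Rep U q (b i) W x) : ∃ (T : Type) (_ : Fintype T) (s : T → ℤ) (e : T → J) (j0 : J)
      (ex : T → ℕ → ℕ) (ρ : T → ℝ), (∀ᶠ k in U, W j0 k ≠ 0) ∧ (∀ t, 0 ≤ ρ t) ∧
      (∀ t, Rt U q (fun k => Pi.single i (-ex t k)) (Pi.single i (-ρ t))) ∧
      x = (∑ t, (s t : ℚ) • (gmr U b (fun k => Pi.single i (-ex t k)) *
        germ U fun k => W (e t) k)) / germ U fun k => W j0 k := by
  obtain ⟨T, _, s, e, j0, ex, B, h0, hB, rfl⟩ := h
  have hlim : ∀ t, ∃ ρ : ℝ, 0 ≤ ρ ∧ Tendsto (fun k => (ex t k : ℝ) / q k) U (𝓝 ρ) := fun t => by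
    obtain ⟨ρ, -, h1⟩ := exists_lim (U := U) (x := fun k => (ex t k : ℝ) / q k) (A := B) (by
      filter_upwards [hB t, hq.eventually_gt_atTop 0] with k h1 h2
      rwa [abs_of_nonneg (by positivity), div_le_iff₀ h2])
    exact ⟨ρ, ge_of_tendsto h1 ((hq.eventually_gt_atTop 0).mono fun k hk => by positivity), h1⟩
  choose ρ hρ0 hρ using hlim
  refine ⟨T, inferInstance, s, e, j0, ex, ρ, h0, hρ0, fun t j => ?_, ?_⟩
  · by_cases h : j = i
    · subst h
      simpa [neg_div] using (hρ t).neg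
    · simp [h]
  · simp only [gmr, ← map_mul, germ_smul, germ_sum]
    refine congrArg (fun f => germ U f / germ U fun k => W j0 k)
      (funext fun k => sum_congr rfl fun t _ => ?_)
    rw [Pi.mul_apply, prod_eq_single i (fun j _ hj => by simp [hj]) (by simp)]
    simp
    ring

lemma germ_ne {f : ℕ → ℤ} (h : ∀ᶠ k in U, f k ≠ 0) : (germ U fun k => f k) ≠ 0 := fun h1 => by
  obtain ⟨k, hk⟩ := (h.and (germ_eq_zero.mp h1)).exists
  exact hk.1 (by exact_mod_cast hk.2)

lemma word_small (hq : Tendsto q U atTop) {f : ℕ → ℤ} {c : ℝ}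
    (h : ∀ᶠ k in U, |(f k : ℝ)| ≤ exp (c * q k)) : (germ U fun k => f k) ∈ (smK hq).F 0 c :=
  (germ_small (hq := hq)).mpr (smR_of_le (by simpa [cR] using h))

omit [DecidableEq ι] in
lemma word_cls (hb : ∀ i, b i ≠ 0) {J : Type} [Fintype J] (W : J → UP U) (i0 : ι) (σ : ℝ) (j : J) :
    W j ∈ (cls q hb i0 W σ).F 1 0 := by
  have := cls_term (b := b) (i0 := i0) (W := W) (σ := σ) (Rt.zero (q := q)) (by simp) j
  rwa [gmr_zero, one_mul] at this

set_option maxHeartbeats 1000000 in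
theorem core (hb : ∀ i, b i ≠ 0) (hi : ∀ e : ι → ℤ, ∏ i, (b i : ℚ) ^ e i = 1 → e = 0) (i0 : ι)
    (J : Type) [Fintype J] {c c' : ℝ} (hc : 0 ≤ c) (hc' : 0 ≤ c') (d d' : ℕ) :
    ∃ (D0 : ℕ) (κ : ℝ), 0 ≤ κ ∧
    ∀ (U : Ultrafilter ℕ) (q : ℕ → ℝ) (hq : Tendsto q U atTop) (W : J → ℕ → ℤ),
      (∀ j, ∀ᶠ k in U, |(W j k : ℝ)| ≤ exp (c * q k)) → ∀ x : UP U, Rep U q (b i0) W x →
      x ∈ small hq 0 → ∀ (G : (UP U)[X]) (K : ℝ), G.natDegree ≤ d →
      (∀ σ n, G.coeff n ∈ (cls q hb i0 (fun j => germ U fun k => W j k) σ).F d' 0) →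
      (∀ n, G.coeff n ∈ small hq c') → G.eval x ∈ small hq (-K) →
      ∃ z : Fin (D0 + 1) → UP U, (∃ k, z k ≠ 0) ∧ (∀ k, z k ∈ (zs hq).F 0 κ) ∧
        (syl d D0 (pol z) G).det ∈ small hq (κ - K) := by
  classical
  obtain ⟨D0, m0, hD0, hS⟩ := siegel (2 * d) J
  obtain ⟨N, hN⟩ : ∃ N, N = d + D0 := ⟨_, rfl⟩
  have hcard : Fintype.card (Fin d ⊕ Fin D0) = N := by simp [hN]
  have hN1 : (1 : ℝ) ≤ N := by exact_mod_cast (by omega : 1 ≤ N)
  obtain ⟨E, hE, hsep⟩ := sep_ultraR b hb hi i0 (J → Fin (N + N * (m0 + d + d') + 1))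
    (Fintype.card J * (N + N * (m0 + d + d') : ℕ) * c)
  obtain ⟨κ1, hκ1⟩ : ∃ κ1 : ℝ, κ1 = 2 * E * log (b i0) + Fintype.card J * (m0 * c) := ⟨_, rfl⟩
  have hla := log_natCast_nonneg (b i0)
  have hκ10 : 0 ≤ κ1 := by rw [hκ1]; positivity
  have hNc : 0 ≤ N * c := by positivity
  refine ⟨D0, E + N * (κ1 + N * c + c'), by positivity,
    fun U q hq W hW x hx hx0 G K hGd hGc hGs hG => ?_⟩
  obtain ⟨T, _, s, e, j0, ex, ρ, h0, hρ0, hγ, hx⟩ := hx.unpack hq
  set Wb : J → UP U := fun j => germ U fun k => W j k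
  set γ : T → ℕ → ι → ℤ := fun t k => Pi.single i0 (-ex t k)
  let γH : ℕ → ι → ℤ := fun k => Pi.single i0 ⌊E * q k⌋₊
  have hγH : Rt U q γH (Pi.single i0 E) := fun j => by
    by_cases h : j = i0
    · subst h
      simpa [γH, Function.comp_def] using (tendsto_nat_floor_mul_div_atTop hE.le).comp hq
    · simp [γH, h]
  have hWs : ∀ j, Wb j ∈ (smK hq).F 0 c := fun j => word_small hq (hW j)
  have hWc := word_cls (q := q) hb Wb i0
  have hδ : Wb j0 ≠ 0 := germ_ne h0
  set Xb := ∑ t, (s t : ℚ) • (gmr U b (γ t) * Wb (e t))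
  have hXc : Xb ∈ (cls q hb i0 Wb 1).F 1 0 := Submodule.sum_mem (clsS q b i0 Wb 1 1 0) fun t _ =>
    Submodule.smul_mem _ _ (cls_term (hγ t) (by simpa using hρ0 t) _)
  have hmon : ∀ (j : ℕ) (v : T → ℕ), gmr U b γH ^ j * ∏ t, gmr U b (γ t) ^ v t =
      gmr U b (j • γH + ∑ t, v t • γ t) ∧ Rt U q (j • γH + ∑ t, v t • γ t)
        (Pi.single i0 (j * E - ∑ t, v t * ρ t)) := fun j v =>
    ⟨by simp only [gmr_add hb, gmr_sum hb, gmr_nsmul hb], by
      convert (hγH.nsmul j).add (Rt.sum univ fun t => (hγ t).nsmul (v t)) using 1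
      ext l
      by_cases h : l = i0
      · subst h
        simp [sub_eq_add_neg]
      · simp [h]⟩
  obtain ⟨z, ⟨k0, hk0⟩, hz, hΦ⟩ := hS (UP U) T ρ hρ0 E hE (gmr U b γH) (fun t => gmr U b (γ t))
    Wb (gmr_ne_zero hb _) (fun t => gmr_ne_zero hb _) (fun t => s t) e j0 hδ
    ((clsS q b i0 Wb (-1) m0 0 ⊓ clsS q b i0 Wb 1 m0 (2 * E)) ⊓ (small hq κ1 ⊓
      Submodule.span ℚ {z : UP U | ∃ f : ℕ → ℤ, z = germ U fun k => f k}))
    (clsS q b i0 Wb 1 m0 (-(2 * d : ℕ) * E))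
    (fun j v μ h1 h2 h3 => by
      obtain ⟨e1, e2⟩ := hmon j v
      rw [e1]
      refine ⟨⟨Submodule.subset_span ⟨_, _, μ, h1, by rw [Pi.single_eq_same]; linarith, e2, rfl⟩,
        Submodule.subset_span ⟨_, _, μ, h1, by rw [Pi.single_eq_same]; linarith, e2, rfl⟩⟩, ?_,
        Submodule.subset_span ?_⟩
      · have := (smK hq).mul (gmr_small hb e2) ((smK hq).prod univ (m := 0)
          (r := fun _ => m0 * c) fun l _ => (smK hq).mono (by simp)
            (mul_le_mul_of_nonneg_right (by exact_mod_cast h1 l) hc) ((smK hq).pow (hWs l) (μ l)))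
        refine (smK hq).mono (m' := 0) (by simp) ?_ this
        rw [hκ1, sum_const, card_univ, nsmul_eq_mul,
          sum_eq_single i0 (fun l _ hl => by simp [hl]) (by simp), Pi.single_eq_same]
        nlinarith
      · obtain ⟨f, hf⟩ : ∃ f : ℕ → ℤ, gmr U b (j • γH + ∑ t, v t • γ t) = germ U fun k => f k := by
          refine ⟨fun k => b i0 ^ ((j • γH + ∑ t, v t • γ t) k i0).toNat, germ_eq.mpr ?_⟩
          filter_upwards [(e2 i0).eventually_const_lt (u := 0) (by rw [Pi.single_eq_same]; linarith),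
            hq.eventually_gt_atTop 0] with k h4 h5
          have h6 : 0 ≤ (j • γH + ∑ t, v t • γ t) k i0 := by
            exact_mod_cast ((div_pos_iff_of_pos_right h5).mp h4).le
          rw [prod_eq_single i0 (fun l _ hl => by simp [γH, γ, hl]) (by simp), Int.cast_pow,
            Int.cast_natCast, ← zpow_natCast, Int.toNat_of_nonneg h6]
        refine ⟨fun k => f k * ∏ l, W l k ^ μ l, ?_⟩
        simp only [hf, Wb, ← map_pow, ← map_prod, ← map_mul]
        exact congrArg _ (funext fun k => by simp))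
    (fun j v μ h1 h2 => by
      obtain ⟨e1, e2⟩ := hmon j v
      rw [e1]
      exact Submodule.subset_span ⟨_, _, μ, h1, by rw [Pi.single_eq_same]; linarith, e2, rfl⟩)
  obtain ⟨d0, f, hd0, hf⟩ := exists_int_family fun l => (hz l).2.2
  have hκ2 : κ1 ≤ N * (κ1 + N * c + c') := by nlinarith
  refine ⟨fun l => d0 • z l, ⟨k0, smul_ne_zero hd0 hk0⟩, fun l => ⟨⟨_, hf l⟩,
    (smK hq).mono (m := 0) (m' := 0) le_rfl (by linarith) (Submodule.smul_mem _ d0 (hz l).2.1)⟩, ?_⟩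
  set P : (UP U)[X] := pol fun l => d0 • z l
  obtain ⟨c0, hsp⟩ := det_split (P := P) (natDegree_pol _) hGd hD0 x (Wb j0 ^ N)
  have hL : Wb j0 ^ N * (syl d D0 P G).det ∈ (cls q hb i0 Wb (-1)).F (N + N * (m0 + d + d')) 0 := by
    have := (cls q hb i0 Wb (-1)).mul ((cls q hb i0 Wb (-1)).pow (hWc _ j0) N)
      ((cls q hb i0 Wb (-1)).det (M := syl d D0 P G) (m := m0 + d + d')
        (α := fun _ => 0) (γ := fun _ => 0) (syl_mem
          (A := fun _ => (cls q hb i0 Wb (-1)).F (m0 + d + d') (0 + 0))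
          (fun _ => coeff_pol_mem fun l => Fil.mono _ (m := m0) (r := 0) (by omega) (by simp)
            (Submodule.smul_mem _ d0 (hz l).1.1))
          fun _ n => Fil.mono _ (by omega) (by simp) (hGc _ n)))
    simpa [← hN] using this
  have hR : ((syl d D0 P G).updateCol c0 (Sum.elim (fun l : Fin d =>
      Wb j0 ^ N * (x ^ (l : ℕ) * P.eval x)) 0)).det ∈
      (cls q hb i0 Wb 1).F (N + N * (m0 + d + d')) (-E) := by
    have := (cls q hb i0 Wb 1).det_update (M := syl d D0 P G)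
      (m := m0 + d + d') (α := Sum.elim (fun _ => 2 * E) fun _ => 0) (syl_mem
        (A := fun r => (cls q hb i0 Wb 1).F (m0 + d + d') (Sum.elim (fun _ => 2 * E) (fun _ => 0) r))
        (fun _ => coeff_pol_mem fun l => Fil.mono _ (m := m0) (r := 2 * E) (by omega) (by simp)
          (Submodule.smul_mem _ d0 (hz l).1.2))
        fun _ n => Fil.mono _ (by omega) (by simp) (hGc _ n)) c0
      (v := Sum.elim (fun l : Fin d => Wb j0 ^ N * (x ^ (l : ℕ) * P.eval x)) 0)
      (β := -(2 * d : ℕ) * E - 2 * E) (by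
        rintro (l | l)
        · have e1 : Wb j0 ^ N * (x ^ (l : ℕ) * P.eval x) =
              Xb ^ (l : ℕ) * Wb j0 ^ (d - l) * d0 • ∑ n : Fin (D0 + 1),
                z n * (Xb ^ (n : ℕ) * Wb j0 ^ (D0 - n)) := by
            rw [hN, pow_add, mul_mul_mul_comm, hx, pow_mul_div_pow hδ _ l.2.le, eval_pol,
              mul_sum, smul_sum]
            congr 1
            refine sum_congr rfl fun n _ => ?_
            rw [mul_left_comm, pow_mul_div_pow hδ _ (Nat.lt_succ_iff.mp n.2), smul_mul_assoc]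
          simp only [Sum.elim_inl, e1]
          refine Fil.mono _ ?_ ?_ (Fil.mul _ (Fil.mul _ (Fil.pow _ hXc l) (Fil.pow _ (hWc 1 j0) _))
            (m' := m0) (Submodule.smul_mem _ d0 hΦ))
          · have := l.2
            omega
          · simp
        · exact zero_mem _)
    refine Fil.mono _ (by rw [hcard]; omega) ?_ this
    simp only [Fintype.sum_sum_type, Sum.elim_inl, Sum.elim_inr, sum_const, card_univ,
      Fintype.card_fin, nsmul_eq_mul]
    push_cast
    linarith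
  have hS2 := (smK hq).det_update (M := syl d D0 P G) (m := 0)
    (α := fun _ => κ1 + N * c + c') (syl_mem (A := fun _ => (smK hq).F 0 (κ1 + N * c + c'))
      (fun _ => coeff_pol_mem fun l => Fil.mono _ (m := 0) (r := κ1) le_rfl (by linarith)
        (Submodule.smul_mem _ d0 (hz l).2.1))
      fun _ n => Fil.mono _ (m := 0) le_rfl (by linarith) (hGs n)) c0
    (v := Sum.elim 0 fun l : Fin D0 => Wb j0 ^ N * (x ^ (l : ℕ) * G.eval x)) (β := -K) (by
      rintro (l | l)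
      · exact zero_mem _
      · rw [Sum.elim_inr]
        refine Fil.mono _ (by simp) ?_ (Fil.mul _ (Fil.pow _ (hWs j0) N) (Fil.mul _
          (Fil.pow (smK hq) (m := 0) hx0 l) (m' := 0) hG))
        linarith)
  rw [sum_const, card_univ, hcard, nsmul_eq_mul] at hS2
  have h1 := hsep U q hq (fun μ k => ∏ j, W j k ^ (μ j : ℕ)) (fun μ => by
      filter_upwards [eventually_all.mpr hW, hq.eventually_ge_atTop 0] with k h1 h2
      rw [Int.cast_prod, abs_prod]
      refine (prod_le_prod (fun _ _ => abs_nonneg _)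
        (g := fun _ => exp ((N + N * (m0 + d + d') : ℕ) * (c * q k))) fun j _ => ?_).trans_eq ?_
      · rw [Int.cast_pow, abs_pow, exp_nat_mul]
        exact (pow_le_pow_left₀ (abs_nonneg _) (h1 j) _).trans
          (pow_le_pow_right₀ (one_le_exp (by positivity)) (Nat.lt_succ_iff.mp (μ j).2))
      · rw [prod_const, card_univ, ← exp_nat_mul]
        ring_nf)
    (K - N * (κ1 + N * c + c')) _ _ (cls_le_uwr i0 W _ _ _ hL) (cls_le_uwr i0 W _ _ _ hR) (by
      rw [hsp, add_sub_cancel_left, neg_sub, sub_eq_add_neg]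
      exact hS2)
  have := (smK hq).mul (Fil.pow _ (inv_small (hq := hq) h0) N) (m' := 0) h1
  rw [inv_pow, inv_mul_cancel_left₀ (pow_ne_zero _ hδ)] at this
  exact (smK hq).mono (m' := 0) (by simp) (by linarith) this

end Pool.Agent.Lib.MP_c9a594_an.AR
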