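import Pool.Agent.Lib.MP_c9a594_an.AI.Fils

/-! Several bases: the notions shared by the elimination and the substitution steps. -/

open Filter Topology Real Finset Polynomial

namespace Pool.Agent.Lib.MP_c9a594_an.AR

open AI

variable {U : Ultrafilter ℕ} {q : ℕ → ℝ} {ι : Type}

/-- Classes of integer sequences of bounded growth rate. -/
noncomputable def zs (hq : Tendsto q U atTop) : Fil (UP U) where
  F _ r :=
    { carrier := {z | (∃ f : ℕ → ℤ, z = germ U fun k => f k) ∧ z ∈ small hq r}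
      zero_mem' := ⟨⟨0, (germ_eq_zero.mpr (by simp)).symm⟩, zero_mem _⟩
      add_mem' := by
        rintro _ _ ⟨⟨f, rfl⟩, h⟩ ⟨⟨g, rfl⟩, h'⟩
        exact ⟨⟨f + g, by rw [← map_add]; congr 1; ext k; simp⟩, add_mem h h'⟩
      neg_mem' := by
        rintro _ ⟨⟨f, rfl⟩, h⟩
        exact ⟨⟨-f, by rw [← map_neg]; congr 1⟩, neg_mem h⟩ }
  one := ⟨⟨1, by rw [← map_one (germ U)]; congr 1⟩, (smK hq).one⟩
  mul := by
    rintro _ _ _ _ _ _ ⟨⟨f, rfl⟩, h⟩ ⟨⟨g, rfl⟩, h'⟩
    exact ⟨⟨f * g, by rw [← map_mul]; congr 1; ext k; simp⟩,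
      (smK hq).mul (m := 0) (m' := 0) h h'⟩
  mono _ h' h := ⟨h.1, (smK hq).mono (m := 0) (m' := 0) le_rfl h' h.2⟩

/-- Polynomials in the variables `s`, of degree at most `m` in each variable, with coefficients in
a given filtration. -/
noncomputable def mvFil {R : Type} [CommRing R] (Φ : Fil R) (s : Set ι) :
    Fil (MvPolynomial ι R) where
  F m r :=
    { carrier := {p | ∀ μ ∈ p.support, (∀ i, μ i ≤ m) ∧ (∀ i ∉ s, μ i = 0) ∧
        p.coeff μ ∈ Φ.F 0 r}
      zero_mem' := by simp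
      add_mem' := by
        classical
        intro p p' hp hp' μ hμ
        have h : ∀ {p : MvPolynomial ι R}, (∀ μ ∈ p.support, (∀ i, μ i ≤ m) ∧ (∀ i ∉ s, μ i = 0) ∧
            p.coeff μ ∈ Φ.F 0 r) → p.coeff μ ∈ Φ.F 0 r := fun {p} hp => by
          by_cases h : μ ∈ p.support
          · exact (hp μ h).2.2
          · rw [MvPolynomial.notMem_support_iff.mp h]; exact zero_mem _
        rw [MvPolynomial.coeff_add]
        rcases mem_union.mp (MvPolynomial.support_add hμ) with h1 | h1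
        exacts [⟨(hp μ h1).1, (hp μ h1).2.1, add_mem (h hp) (h hp')⟩,
          ⟨(hp' μ h1).1, (hp' μ h1).2.1, add_mem (h hp) (h hp')⟩]
      neg_mem' := fun {p} hp μ hμ => by
        rw [MvPolynomial.support_neg] at hμ
        rw [MvPolynomial.coeff_neg]
        exact ⟨(hp μ hμ).1, (hp μ hμ).2.1, neg_mem (hp μ hμ).2.2⟩ }
  one μ hμ := by
    classical
    have : μ = 0 := by simpa using MvPolynomial.support_monomial_subset hμ
    subst this
    simpa using Φ.one
  mul := by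
    classical
    intro m m' r r' p p' hp hp' μ hμ
    obtain ⟨a, ha, b, hb, rfl⟩ := mem_add.mp (MvPolynomial.support_mul _ _ hμ)
    refine ⟨fun i => add_le_add ((hp a ha).1 i) ((hp' b hb).1 i), fun i hi => by
      simp [(hp a ha).2.1 i hi, (hp' b hb).2.1 i hi], ?_⟩
    rw [MvPolynomial.coeff_mul]
    refine AddSubgroup.sum_mem _ fun c _ => ?_
    by_cases h1 : c.1 ∈ p.support
    · by_cases h2 : c.2 ∈ p'.support
      · exact Φ.mul (hp _ h1).2.2 (hp' _ h2).2.2
      · simp [MvPolynomial.notMem_support_iff.mp h2]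
    · simp [MvPolynomial.notMem_support_iff.mp h1]
  mono h h' hp μ hμ := ⟨fun i => ((hp μ hμ).1 i).trans h, (hp μ hμ).2.1,
    Φ.mono le_rfl h' (hp μ hμ).2.2⟩

lemma monomial_mem_mvFil {R : Type} [CommRing R] {Φ : Fil R} {s : Set ι} {m : ℕ} {r : ℝ}
    {μ : ι →₀ ℕ} {a : R} (h1 : ∀ i, μ i ≤ m) (h2 : ∀ i ∉ s, μ i = 0) (h3 : a ∈ Φ.F 0 r) :
    MvPolynomial.monomial μ a ∈ (mvFil Φ s).F m r := fun ν hν => by
  classical
  have : ν = μ := by simpa using MvPolynomial.support_monomial_subset hν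
  subst this
  exact ⟨h1, h2, by simpa using h3⟩

/-- Polynomials with all coefficients in a given filtration. -/
noncomputable def polyFil {R : Type} [CommRing R] (Φ : Fil R) : Fil R[X] where
  F m r :=
    { carrier := {p | ∀ n, p.coeff n ∈ Φ.F m r}
      zero_mem' := fun n => by simp
      add_mem' := fun hp hp' n => by rw [coeff_add]; exact add_mem (hp n) (hp' n)
      neg_mem' := fun hp n => by rw [coeff_neg]; exact neg_mem (hp n) }
  one n := by
    rw [coeff_one]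
    split_ifs
    exacts [Φ.one, zero_mem _]
  mul hp hp' n := by
    rw [coeff_mul]
    exact AddSubgroup.sum_mem _ fun c _ => Φ.mul (hp _) (hp' _)
  mono h h' hp n := Φ.mono h h' (hp n)

variable (U q) in
/-- `x` is a sum of words divided by powers of `a`, over a nonzero word. -/
def Rep (a : ℕ) {J : Type} (W : J → ℕ → ℤ) (x : UP U) : Prop :=
  ∃ (T : Type) (_ : Fintype T) (s : T → ℤ) (e : T → J) (j0 : J) (ex : T → ℕ → ℕ) (B : ℝ),
    (∀ᶠ k in U, W j0 k ≠ 0) ∧ (∀ t, ∀ᶠ k in U, (ex t k : ℝ) ≤ B * q k) ∧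
    x = germ U ((fun k => ∑ t, (s t * W (e t) k : ℚ) / a ^ ex t k) / fun k => (W j0 k : ℚ))

/-- A nonzero integer polynomial in the variables `s` is small at `x`. -/
def Rel (hq : Tendsto q U atTop) (x : ι → UP U) (s : Set ι) (c : ℕ) (K : ℝ) : Prop :=
  ∃ G : MvPolynomial ι (UP U), G ≠ 0 ∧ G ∈ (mvFil (zs hq) s).F c c ∧
    MvPolynomial.eval x G ∈ small hq (-K)

/-- A nonzero integer polynomial in one variable is small at `x`. -/
def App (hq : Tendsto q U atTop) (x : UP U) (c : ℕ) (K : ℝ) : Prop :=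
  ∃ Q : (UP U)[X], Q ≠ 0 ∧ Q.natDegree ≤ c ∧ (∀ n, Q.coeff n ∈ (zs hq).F 0 c) ∧
    Q.eval x ∈ small hq (-K)

/-- The conclusion of the elimination steps. -/
def Claim [Fintype ι] (b : ι → ℕ) : Prop :=
  ∀ (J : Type) [Fintype J] (c0 : ℝ) (s : Set ι) (c : ℕ), ∃ c' : ℕ, ∀ K' : ℝ, ∃ K : ℝ,
    ∀ (U : Ultrafilter ℕ) (q : ℕ → ℝ) (hq : Tendsto q U atTop) (W : J → ℕ → ℤ),
      (∀ j, ∀ᶠ k in U, |(W j k : ℝ)| ≤ exp (c0 * q k)) → ∀ x : ι → UP U,
      (∀ i, Rep U q (b i) W (x i)) → (∀ i, x i ∈ small hq 0) → Rel hq x s c K →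
      ∃ i ∈ s, App hq (x i) c' K'

end Pool.Agent.Lib.MP_c9a594_an.AR
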