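import Pool.Agent.Lib.MP_c9a594_an.AR.Subst
import Pool.Agent.Lib.MP_c9a594_an.AI.Main

/-! Algebraic independence of finitely many numbers of linear complexity, from the elimination
steps. -/

open Filter Topology Real Finset Polynomial

namespace Pool.Agent.Lib.MP_c9a594_an.AR

open AI

variable {U : Ultrafilter ℕ} {q : ℕ → ℝ} {ι : Type} {hq : Tendsto q U atTop}

lemma App.mono2 {x : UP U} {c c' : ℕ} {K K' : ℝ} (h : App hq x c K) (hc : c ≤ c') (hK : K' ≤ K) :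
    App hq x c' K' := by
  obtain ⟨Q, h0, h1, h2, h3⟩ := h
  exact ⟨Q, h0, h1.trans hc, fun n => Fil.mono _ le_rfl (by exact_mod_cast hc) (h2 n),
    (smK hq).mono (m := 0) (m' := 0) le_rfl (by linarith) h3⟩

lemma near_mono {K K' : ℝ} (hK : K' ≤ K) {p : (ℕ → ℝ) × (ℕ → ℝ)} (h : p ∈ near hq (-K)) :
    p ∈ near hq (-K') := ⟨h.1, h.2.1, (smR hq).mono le_rfl (by linarith) h.2.2⟩

lemma App.finite {xs : ℕ → ℚ} {y K : ℝ} {c : ℕ} (h : App hq (germ U xs) c K)
    (hn : (cR xs, fun _ => y) ∈ near hq (-K)) : ∀ᶠ k in U, ∃ Q : ℤ[X], Q ≠ 0 ∧ Q.natDegree ≤ c ∧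
      (∀ n, |(Q.coeff n : ℝ)| ≤ exp ((c + 1) * q k)) ∧ |aeval y Q| ≤ exp ((c + 1 - K) * q k) := by
  obtain ⟨Q, h0, h1, h2, h3⟩ := h
  choose f hf using fun n => (h2 n).1
  let ρQ : (ℕ → ℤ) →+* (ℕ → ℚ) := (Int.castRingHom ℚ).compLeft ℕ
  have h4 : cR.comp ρQ = zR := by ext f k; simp [cR, ρQ, zR]
  let Ψ : (ℕ → ℤ)[X] := pol fun l : Fin (c + 1) => f l
  have hΨQ : Ψ.map ((germ U).comp ρQ) = Q := by
    rw [map_pol]
    conv_rhs => rw [Q.as_sum_range' (c + 1) (by omega), ← Fin.sum_univ_eq_sum_range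
      fun i => monomial i (Q.coeff i)]
    exact sum_congr rfl fun l _ => by rw [C_mul_X_pow_eq_monomial, hf]; rfl
  have hΨ : Ψ ∈ (smP hq).F c c := ⟨natDegree_pol _, fun n => by
    have : germ U (ρQ (Ψ.coeff n)) ∈ small hq c := by
      have e := coeff_map ((germ U).comp ρQ) (p := Ψ) n
      rw [hΨQ] at e
      exact (e : Q.coeff n = germ U (ρQ (Ψ.coeff n))) ▸ (h2 n).2
    rw [← h4]
    exact germ_small.mp this⟩
  have h5 : Ψ.eval₂ zR (fun _ => y) ∈ (smR hq).F 0 (c - K) := by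
    rw [← hΨQ, eval_map, ← hom_eval₂, germ_small, hom_eval₂, h4] at h3
    simpa [sub_eq_add_neg] using sub_mem ((smR hq).mono le_rfl (by simp) h3) (near_eval hn hΨ)
  obtain ⟨n0, hn0⟩ : ∃ n, Q.coeff n ≠ 0 := ⟨_, leadingCoeff_ne_zero.mpr h0⟩
  have h6 : ∀ᶠ k in U, Ψ.coeff n0 k ≠ 0 := by
    rw [← hΨQ, coeff_map] at hn0
    exact (Ultrafilter.eventually_not.mpr fun h => hn0 (germ_eq_zero.mpr h)).mono
      fun k hk h => hk (by simp [ρQ, h])
  filter_upwards [h5 1 one_pos, h6, eventually_all.mpr fun n : Fin (c + 1) => hΨ.2 n 1 one_pos]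
    with k h7 h8 h9
  refine ⟨Ψ.map (Pi.evalRingHom _ k), fun h => h8 ?_, natDegree_map_le.trans hΨ.1, fun n => ?_, ?_⟩
  · simpa using congrArg (coeff · n0) h
  · rw [coeff_map]
    by_cases hn : n < c + 1
    · exact h9 ⟨n, hn⟩
    · rw [coeff_eq_zero_of_natDegree_lt (by have := hΨ.1; omega)]
      simp [(exp_pos _).le]
  · have e1 := hom_eval₂ Ψ zR (Pi.evalRingHom (fun _ : ℕ => ℝ) k) fun _ => y
    rw [aeval_def, eval₂_map]
    convert h7 using 2
    · exact e1.symm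
    · ring

/-- All variables of a minimal relation become approximately algebraic. -/
lemma loop [Fintype ι] [DecidableEq ι] {b : ι → ℕ} (hc : Claim b) (F : MvPolynomial ι ℤ)
    (y : ι → ℝ) (hF : evZ y F = 0) (hnd : ∀ j ∈ F.vars, (tp j F).map (evZ y) ≠ 0) (J : Type)
    [Fintype J] (c0 : ℝ) (k : ℕ) : ∃ c : ℕ, ∀ K' : ℝ, ∃ K : ℝ,
    ∀ (U : Ultrafilter ℕ) (q : ℕ → ℝ) (hq : Tendsto q U atTop) (W : J → ℕ → ℤ),
      (∀ j, ∀ᶠ k in U, |(W j k : ℝ)| ≤ exp (c0 * q k)) → ∀ xs : ι → ℕ → ℚ,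
      (∀ i, Rep U q (b i) W (germ U (xs i))) → (∀ i, (cR (xs i), fun _ => y i) ∈ near hq (-K)) →
      ∃ I : Finset ι, (k ≤ I.card ∨ F.vars ⊆ I) ∧ ∀ i ∈ I, App hq (germ U (xs i)) c K' := by
  induction k with
  | zero => exact ⟨0, fun _ => ⟨0, fun _ _ _ _ _ _ _ _ => ⟨∅, by simp, by simp⟩⟩⟩
  | succ k ih =>
    obtain ⟨c, ih⟩ := ih
    have hstep : ∀ I : Finset ι, ∃ c' : ℕ, ∀ K' : ℝ, ∃ K : ℝ, ¬ F.vars ⊆ I →
        ∀ (U : Ultrafilter ℕ) (q : ℕ → ℝ) (hq : Tendsto q U atTop) (W : J → ℕ → ℤ),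
        (∀ j, ∀ᶠ k in U, |(W j k : ℝ)| ≤ exp (c0 * q k)) → ∀ xs : ι → ℕ → ℚ,
        (∀ i, Rep U q (b i) W (germ U (xs i))) → (∀ i, (cR (xs i), fun _ => y i) ∈ near hq (-K)) →
        (∀ i ∈ I, App hq (germ U (xs i)) c K) → ∃ i ∉ I, App hq (germ U (xs i)) c' K' := by
      intro I
      by_cases hI : F.vars ⊆ I
      · exact ⟨0, fun _ => ⟨0, fun h => absurd hI h⟩⟩
      obtain ⟨j, hj, hjI⟩ := not_subset.mp hI
      obtain ⟨c1, h1⟩ := subst F y hF I hjI (hnd j hj) c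
      obtain ⟨c2, h2⟩ := hc J c0 (I : Set ι)ᶜ c1
      refine ⟨c2, fun K' => ?_⟩
      obtain ⟨K2, h2⟩ := h2 K'
      obtain ⟨K1, h1⟩ := h1 K2
      exact ⟨K1, fun _ U q hq W hW xs hr hn ha => h2 U q hq W hW _ hr
        (fun i => germ_small.mpr (hn i).1) (h1 U q hq xs hn ha)⟩
    choose c' hstep using hstep
    refine ⟨c + ∑ I, c' I, fun K' => ?_⟩
    choose K1 hstep using fun I => hstep I K'
    have hK : ∀ I, K1 I ≤ |K'| + ∑ I, |K1 I| := fun I => (le_abs_self _).trans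
      ((single_le_sum (f := fun I => |K1 I|) (fun _ _ => abs_nonneg _) (mem_univ I)).trans
        (le_add_of_nonneg_left (abs_nonneg _)))
    have hK' : K' ≤ |K'| + ∑ I, |K1 I| :=
      (le_abs_self _).trans (le_add_of_nonneg_right (by positivity))
    obtain ⟨K, ih⟩ := ih (|K'| + ∑ I, |K1 I|)
    refine ⟨max K (|K'| + ∑ I, |K1 I|), fun U q hq W hW xs hr hn => ?_⟩
    obtain ⟨I, h1, h2⟩ := ih U q hq W hW xs hr fun i => near_mono (le_max_left _ _) (hn i)
    by_cases hI : F.vars ⊆ I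
    · exact ⟨I, Or.inr hI, fun i hi => (h2 i hi).mono2 (by omega) hK'⟩
    obtain ⟨i, hi, h3⟩ := hstep I hI U q hq W hW xs hr
      (fun i => near_mono ((hK I).trans (le_max_right _ _)) (hn i))
      fun i hi => (h2 i hi).mono2 le_rfl (hK I)
    refine ⟨insert i I, Or.inl ?_, fun j hj => ?_⟩
    · rw [card_insert_of_notMem hi]
      exact Nat.succ_le_succ (h1.resolve_right hI)
    · rcases mem_insert.mp hj with rfl | hj
      · exact h3.mono2 ((single_le_sum (f := c') (fun _ _ => Nat.zero_le _) (mem_univ I)).trans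
          (Nat.le_add_left _ _)) le_rfl
      · exact (h2 j hj).mono2 (by omega) hK'

theorem no_relationR [Fintype ι] (b : ι → ℕ) (hb : ∀ i, 2 ≤ b i) (hc : Claim b) (x : ι → ℝ)
    (hx : ∀ i, Transcendental ℤ (x i)) (C : ℝ)
    (h : ∀ i, ∀ᶠ n : ℕ in atTop, (cx (b i) (x i) n : ℝ) ≤ C * n) (F : MvPolynomial ι ℤ)
    (hF : evZ (fun i => Int.fract (x i)) F = 0) : F = 0 := by
  classical
  by_contra hF0
  set y : ι → ℝ := fun i => Int.fract (x i) with hy
  have hex : ∃ n, ∃ G : MvPolynomial ι ℤ, G ≠ 0 ∧ evZ y G = 0 ∧ G.totalDegree = n :=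
    ⟨_, F, hF0, hF, rfl⟩
  obtain ⟨G, hG0, hG, hGn⟩ := Nat.find_spec hex
  have hnd : ∀ j ∈ G.vars, (tp j G).map (evZ y) ≠ 0 := fun j hj h0 => by
    obtain ⟨ν, hν, hj⟩ := (MvPolynomial.mem_vars_iff_mem_support j).mp hj
    have h1 : (tp j G).coeff (ν j) ≠ 0 := fun h1 => MvPolynomial.mem_support_iff.mp hν (by
      have := coeff_tp j G (ν j) (ν.erase j)
      rw [h1, if_pos (by simp), Finsupp.erase_add_single] at this
      exact this.symm)
    refine Nat.find_min hex ?_ ⟨_, h1, by rw [← coeff_map, h0, coeff_zero], rfl⟩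
    rw [← hGn]
    obtain ⟨μ, hμ, e⟩ := exists_mem_eq_sup _ (MvPolynomial.support_nonempty.mpr h1)
      fun s : ι →₀ ℕ => s.sum fun _ e => e
    have h2 := MvPolynomial.le_totalDegree (mem_support_tp hμ).2
    rw [Finsupp.sum_add_index' (fun _ => rfl) (fun _ _ _ => rfl), Finsupp.sum_single_index rfl]
      at h2
    have h3 := Finsupp.mem_support_iff.mp hj
    rw [MvPolynomial.totalDegree, e]
    omega
  obtain ⟨j0, hj0⟩ : G.vars.Nonempty := by
    rw [nonempty_iff_ne_empty]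
    intro h0
    rw [MvPolynomial.vars_eq_empty_iff_eq_C.mp h0] at hG hG0
    exact hG0 (by simpa using hG)
  choose D c hw using fun i => words (b i) (hb i) C
  have hc1 : ∀ i, c i ≤ ∑ i, |c i| := fun i => (le_abs_self _).trans
    (single_le_sum (f := fun i => |c i|) (fun _ _ => abs_nonneg _) (mem_univ i))
  obtain ⟨m, hm⟩ := loop hc G y hG hnd (Σ i, Option (Fin (D i))) (∑ i, |c i|) (Fintype.card ι + 1)
  refine transcendental_fract (hx j0) (gelfond _ m (m + 1) fun K => ?_)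
  obtain ⟨K1, hm⟩ := hm (K + (m + 1))
  set K2 := |K1| + |K + (m + 1)| with hK2
  choose M n0 B hw using fun i => hw i K2
  obtain ⟨n1, hn1⟩ := eventually_atTop.mp ((eventually_all.mpr h).and
    (eventually_all.mpr fun i => eventually_ge_atTop (n0 i)))
  by_contra hbad
  simp only [not_exists, not_forall] at hbad
  choose n hn hno using fun k => hbad (k + n1)
  have hn' := fun k => hn1 (n k) (le_of_add_le_right (hn k))
  choose d V s e0 e h1 h2 h3 h4 h5 h6 using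
    fun i k => hw i (n k) ((hn' k).2 i) (x i) ((hn' k).1 i)
  let U := Ultrafilter.of (atTop : Filter ℕ)
  have hq : Tendsto (fun k => (n k : ℝ)) U atTop := (tendsto_natCast_atTop_atTop.comp
    (tendsto_atTop_mono (fun k => le_of_add_le_left (hn k)) tendsto_id)).mono_left
      (Ultrafilter.of_le _)
  choose s0 hs0 using fun i => exists_const U (s i)
    (Set.Finite.pi' fun _ => Set.finite_Icc (-1) 1) fun k t => abs_le.mp (h4 i k t)
  choose e1 he1 using fun i => exists_const U (e i) Set.finite_univ fun _ => trivial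
  let W : (Σ i, Option (Fin (D i))) → ℕ → ℤ := fun j k => j.2.elim (d j.1 k) (V j.1 k)
  let xs : ι → ℕ → ℚ := fun i =>
    (fun k => ∑ t, (s0 i t * W ⟨i, some (e1 i t)⟩ k : ℚ) / b i ^ e0 i k t) /
      fun k => (W ⟨i, none⟩ k : ℚ)
  have hnear : ∀ i, (cR (xs i), fun _ => y i) ∈ near hq (-K2) := fun i =>
    near_div (by positivity) (Eventually.of_forall (h1 i)) (by
      filter_upwards [hs0 i, he1 i] with k a1 a2
      simpa [W, ← a1, ← a2] using h6 i k)
  obtain ⟨I, hI, hA⟩ := hm U _ hq W (by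
      rintro ⟨i, _ | j⟩ <;> refine Eventually.of_forall fun k => ?_
      exacts [(h2 i k).trans (exp_le_exp.mpr (mul_le_mul_of_nonneg_right (hc1 i) (Nat.cast_nonneg _))),
        (h3 i k j).trans (exp_le_exp.mpr (mul_le_mul_of_nonneg_right (hc1 i) (Nat.cast_nonneg _)))])
    xs (fun i => ⟨Fin (M i), inferInstance, s0 i, fun t => ⟨i, some (e1 i t)⟩, ⟨i, none⟩,
      fun t k => e0 i k t, B i, Eventually.of_forall (h1 i),
      fun t => Eventually.of_forall fun k => h5 i k t, rfl⟩)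
    fun i => near_mono (by linarith [le_abs_self K1, abs_nonneg (K + (m + 1))]) (hnear i)
  obtain ⟨k, Q, hQ0, hQ1, hQ2, hQ3⟩ := ((hA j0 (hI.resolve_left
    (Nat.not_succ_le_self _ <| ·.trans (card_le_univ I)) hj0)).finite
    (near_mono (by linarith [le_abs_self (K + (m + 1)), abs_nonneg K1]) (hnear j0))).exists
  exact hno k Q ⟨hQ0, hQ1, hQ2, by convert hQ3 using 3; ring⟩

theorem algebraicIndependent_of_claim [Fintype ι] (b : ι → ℕ) (hb : ∀ i, 2 ≤ b i)
    (hc : Claim b) (x : ι → ℝ) (hx : ∀ i, Irrational (x i)) (C : ℝ)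
    (h : ∀ i, ∀ᶠ n : ℕ in atTop, (cx (b i) (x i) n : ℝ) ≤ C * n) : AlgebraicIndependent ℚ x := by
  have : Algebra.IsAlgebraic ℤ ℚ := IsLocalization.isAlgebraic ℚ (nonZeroDivisors ℤ)
  refine AlgebraicIndependent.extendScalars (R := ℤ) ℚ (algebraicIndependent_iff.mpr fun p hp => ?_)
  have hX : ∀ {R : Type} [CommRing R] (z : ι → R) (i : ι), evZ z (MvPolynomial.X i) = z i :=
    fun z i => MvPolynomial.eval₂Hom_X' _ _ _
  have h1 := no_relationR b hb hc x
    (fun i => transcendental_of_linear (b i) (hb i) (x i) (hx i) C (h i)) C h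
    (evZ (fun i => MvPolynomial.X i + (⌊x i⌋ : MvPolynomial ι ℤ)) p) (by
      simp only [hom_evZ, map_add, map_intCast, hX, Int.fract_add_floor]
      exact hp)
  have h2 := congrArg (evZ fun i => MvPolynomial.X i - (⌊x i⌋ : MvPolynomial ι ℤ)) h1
  simp only [hom_evZ, map_add, map_intCast, map_zero, hX, sub_add_cancel] at h2
  have h3 : evZ MvPolynomial.X = RingHom.id (MvPolynomial ι ℤ) :=
    MvPolynomial.ringHom_ext (fun r => by simp) fun i => hX _ _
  exact (RingHom.congr_fun h3 p).symm.trans h2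

end Pool.Agent.Lib.MP_c9a594_an.AR
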