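import Pool.Agent.Lib.MP_c9a594_an.AR.SubstA

/-! Substituting approximately algebraic numbers in a fixed relation. -/

open Filter Topology Real Finset Polynomial

namespace Pool.Agent.Lib.MP_c9a594_an.AR

open AI

variable {U : Ultrafilter ℕ} {q : ℕ → ℝ} {ι : Type} {hq : Tendsto q U atTop}

/-- Evaluation of an integer polynomial. -/
noncomputable def evZ {R : Type} [CommRing R] (x : ι → R) : MvPolynomial ι ℤ →+* R :=
  MvPolynomial.eval₂Hom (Int.castRingHom R) x

lemma hom_evZ {R S : Type} [CommRing R] [CommRing S] (φ : R →+* S) (x : ι → R)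
    (F : MvPolynomial ι ℤ) : φ (evZ x F) = evZ (fun i => φ (x i)) F := by
  have : φ.comp (evZ x) = evZ fun i => φ (x i) :=
    MvPolynomial.ringHom_ext (fun r => by simp) fun i => by simp [evZ]
  exact RingHom.congr_fun this F

lemma near_evZ {s : ℝ} {x y : ι → ℕ → ℝ} (h : ∀ i, (x i, y i) ∈ near hq s)
    (F : MvPolynomial ι ℤ) : (evZ x F, evZ y F) ∈ near hq s := by
  have h0 := (evZ (fun i => (⟨_, h i⟩ : near hq s)) F).2
  have h1 := hom_evZ ((RingHom.fst _ _).comp (near hq s).subtype) (fun i => ⟨_, h i⟩) F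
  have h2 := hom_evZ ((RingHom.snd _ _).comp (near hq s).subtype) (fun i => ⟨_, h i⟩) F
  exact (Prod.ext h1 h2 : _ = (evZ x F, evZ y F)) ▸ h0

lemma exists_evZ_mem (F : MvPolynomial ι ℤ) : ∃ m : ℕ, ∀ (R : Type) [CommRing R] (Φ : Fil R)
    (x : ι → R), (∀ i, x i ∈ Φ.F 1 0) → evZ x F ∈ Φ.F m 0 := by
  induction F using MvPolynomial.induction_on with
  | C a => exact ⟨0, fun R _ Φ x _ => by simpa using Φ.int a⟩
  | add p p' hp hp' =>
    obtain ⟨m, hp⟩ := hp
    obtain ⟨m', hp'⟩ := hp'
    exact ⟨m + m', fun R _ Φ x hx => by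
      rw [map_add]
      exact add_mem (Φ.mono (by omega) le_rfl (hp R Φ x hx)) (Φ.mono (by omega) le_rfl (hp' R Φ x hx))⟩
  | mul_X p i hp =>
    obtain ⟨m, hp⟩ := hp
    exact ⟨m + 1, fun R _ Φ x hx => by simpa [evZ] using Φ.mul (hp R Φ x hx) (hx i)⟩

lemma mem_smK {z : UP U} {r : ℝ} : z ∈ (smK hq).F 0 r ↔ z ∈ small hq r := Iff.rfl

lemma evZ_small {w : ι → UP U} (hw : ∀ i, w i ∈ small hq 0) (F : MvPolynomial ι ℤ) :
    evZ w F ∈ small hq 0 := (exists_evZ_mem F).choose_spec _ (smK hq) w hw

lemma one_not_small {K : ℝ} (hK : 0 < K) : (1 : UP U) ∉ small hq (-K) := fun h => by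
  obtain ⟨k, h1, h2⟩ := ((h 1 (map_one _).symm (K / 2) (by positivity)).and
    (hq.eventually_gt_atTop 0)).exists
  have : exp ((-K + K / 2) * q k) < 1 := exp_lt_one_iff.mpr (by nlinarith)
  simp only [Pi.one_apply, Rat.cast_one, abs_one] at h1
  linarith

lemma not_small_of_int {K r : ℝ} (hK : 0 < K) {z : UP U} (hz : z ∈ (zs hq).F 0 r) (h0 : z ≠ 0) :
    z ∉ small hq (-K) := fun h => by
  obtain ⟨⟨f, rfl⟩, -⟩ := hz
  have h1 : ∀ᶠ k in U, f k ≠ 0 := (Ultrafilter.eventually_not.mpr
    fun h => h0 (germ_eq_zero.mpr h)).mono fun k hk => by exact_mod_cast hk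
  have := (smK hq).mul (m' := 0) (inv_small h1) h
  rw [inv_mul_cancel₀ h0, zero_add, zero_add] at this
  exact one_not_small (hq := hq) hK this

lemma inv_small_of_near {f : ℕ → ℚ} {y K : ℝ} (hy : y ≠ 0) (hK : 0 < K)
    (h : (cR f, fun _ => y) ∈ near hq (-K)) : germ U f ≠ 0 ∧ (germ U f)⁻¹ ∈ small hq 0 := by
  have hy' : 0 < |y| / 2 := by positivity
  have h1 : ∀ᶠ k in U, |y| / 2 ≤ |(f k : ℝ)| := by
    have h2 : Tendsto (fun k => exp ((-K + K / 2) * q k)) U (𝓝 0) :=
      tendsto_exp_atBot.comp (hq.const_mul_atTop_of_neg (by linarith))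
    filter_upwards [h.2.2 (K / 2) (by positivity), h2.eventually_lt_const hy'] with k h3 h4
    have h5 : |(f k : ℝ) - y| ≤ _ := h3
    linarith [abs_sub_abs_le_abs_sub y (f k), abs_sub_comm y (f k)]
  refine ⟨fun h0 => ?_, ?_⟩
  · obtain ⟨k, h2, h3⟩ := (h1.and (germ_eq_zero.mp h0)).exists
    simp only [h3, Rat.cast_zero, abs_zero] at h2
    linarith
  · rw [← germ_inv, germ_small]
    intro ε hε
    filter_upwards [h1, smR_const (hq := hq) (|y| / 2)⁻¹ ε hε] with k h2 h3
    refine le_trans ?_ ((le_abs_self _).trans h3)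
    simpa [cR, -inv_div] using inv_anti₀ hy' h2

/-- Iterated resultants of `T - F` with the approximate equations of the variables in `A`. -/
lemma elim_all (F : MvPolynomial ι ℤ) (c : ℕ) (A : Finset ι) : ∃ t : ℕ, c ≤ t ∧
    ∀ (U : Ultrafilter ℕ) (q : ℕ → ℝ) (hq : Tendsto q U atTop) (K : ℝ) (x : ι → UP U), 0 < K →
      (∀ i ∈ A, App hq (x i) c K) → ∃ χ : MvPolynomial (Option ι) (UP U),
      χ ∈ (mvFil (zs hq) {o | ∀ i ∈ A, o ≠ some i}).F t t ∧
      (∀ a : ι → AlgebraicClosure (UP U), MvPolynomial.eval₂Hom (C.comp (algebraMap _ _))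
        (fun o : Option ι => o.elim X fun i => C (a i)) χ ≠ 0) ∧
      ∀ w : ι → UP U, (∀ i ∈ A, w i = x i) → (∀ i, w i ∈ small hq 0) →
        MvPolynomial.eval₂Hom (RingHom.id _) (fun o : Option ι => o.elim (evZ w F) w) χ ∈
          small hq (t - K) := by
  classical
  induction A using Finset.induction_on with
  | empty =>
    obtain ⟨m, hm⟩ := exists_evZ_mem F
    refine ⟨c + m + 1, by omega, fun U q hq K x _ _ =>
      ⟨MvPolynomial.X none - evZ (fun i => MvPolynomial.X (some i)) F, ?_, fun a => ?_,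
        fun w _ _ => ?_⟩⟩
    · have h : ∀ o : Option ι, MvPolynomial.X o ∈
          (mvFil (zs hq) {o | ∀ i ∈ (∅ : Finset ι), o ≠ some i}).F 1 0 := fun o =>
        monomial_mem_mvFil (fun i => by rw [Finsupp.single_apply]; split_ifs <;> omega)
          (by simp) (zs hq).one
      exact sub_mem (Fil.mono _ (by omega) (by positivity) (h none))
        (Fil.mono _ (by omega) (by positivity) (hm _ _ _ fun i => h (some i)))
    · rw [map_sub, hom_evZ]
      simpa [← hom_evZ C a F] using X_sub_C_ne_zero (evZ a F)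
    · rw [map_sub, hom_evZ]
      simp
  | insert i A hi ih =>
    obtain ⟨t, hct, ih⟩ := ih
    refine ⟨2 * t * t + t, by omega, fun U q hq K x hK hx => ?_⟩
    obtain ⟨χ, h1, h2, h3⟩ := ih U q hq K x hK fun j hj => hx j (mem_insert_of_mem hj)
    obtain ⟨Q, q0, q1, q2, q3⟩ := hx i (mem_insert_self _ _)
    have hct' : (c : ℝ) ≤ t := by exact_mod_cast hct
    have hD : 0 < Q.natDegree := Nat.pos_of_ne_zero fun h => by
      rw [eq_C_of_natDegree_eq_zero h] at q0 q3
      exact not_small_of_int hK (q2 0) (C_ne_zero.mp q0) (by simpa using q3)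
    have hN : t + Q.natDegree ≤ 2 * t := by omega
    have hN' : ((t + Q.natDegree : ℕ) : ℝ) * t ≤ (2 * t * t + t : ℕ) := by
      exact_mod_cast (Nat.mul_le_mul_right t hN).trans (Nat.le_add_right _ _)
    refine ⟨(syl t Q.natDegree (Q.map MvPolynomial.C) (tp (some i) χ)).det, ?_, fun a => ?_,
      fun w hw hw0 => ?_⟩
    · have := (mvFil (zs hq) {o | ∀ j ∈ insert i A, o ≠ some j}).det
        (M := syl t Q.natDegree (Q.map MvPolynomial.C) (tp (some i) χ)) (m := t)
        (α := fun _ => t) (γ := fun _ => 0) (syl_mem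
          (A := fun _ => (mvFil (zs hq) {o | ∀ j ∈ insert i A, o ≠ some j}).F t (t + 0))
          (fun _ n => by
            rw [coeff_map]
            exact monomial_mem_mvFil (by simp) (by simp) (Fil.mono _ le_rfl (by linarith) (q2 n)))
          fun _ n => by
            rw [add_zero]
            refine mvFil_mono (fun o ho j hj => ?_) (coeff_tp_mem h1 _ n)
            rcases mem_insert.mp hj with rfl | hj
            exacts [ho.2, ho.1 j hj])
      refine Fil.mono _ ?_ ?_ this
      · simpa using (Nat.mul_le_mul_right t hN).trans (Nat.le_add_right _ _)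
      · simpa using hN'
    · have hs := IsAlgClosed.splits (Q.map (algebraMap _ (AlgebraicClosure (UP U))))
      have e1 := hs.natDegree_eq_card_roots
      have e2 := congrArg (Polynomial.map C) hs.eq_prod_roots
      rw [natDegree_map, ← Multiset.card_map C] at e1
      rw [map_det_syl, Polynomial.map_map, MvPolynomial.eval₂Hom_comp_C, ← Polynomial.map_map, e2,
        Polynomial.map_mul, map_C, Polynomial.map_multiset_prod, Multiset.map_map]
      have := det_syl_ne_zero_of_roots (e := t)
        ((Q.map (algebraMap _ (AlgebraicClosure (UP U)))).roots.map C)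
        (C_ne_zero.mpr (leadingCoeff_ne_zero.mpr (Polynomial.map_ne_zero
          (f := algebraMap _ (AlgebraicClosure (UP U))) q0)))
        (F := (tp (some i) χ).map (MvPolynomial.eval₂Hom (C.comp (algebraMap _ _))
          fun o : Option ι => o.elim X fun i => C (a i)))
        (natDegree_map_le.trans (natDegree_tp h1 _)) fun τ hτ => by
          obtain ⟨τ, -, rfl⟩ := Multiset.mem_map.mp hτ
          rw [eval_tp, show Function.update (fun o : Option ι => o.elim X fun i => C (a i))
            (some i) (C τ) = fun o : Option ι => o.elim X fun j => C (Function.update a i τ j) from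
            funext fun o => by
              rcases o with _ | j
              · simp
              · by_cases h : j = i <;> simp [h]]
          exact h2 _
      rw [← e1, Multiset.map_map] at this
      simpa [Function.comp_def] using this
    · rw [map_det_syl, Polynomial.map_map, MvPolynomial.eval₂Hom_comp_C, Polynomial.map_id]
      set G := (tp (some i) χ).map (MvPolynomial.eval₂Hom (RingHom.id _)
        fun o : Option ι => o.elim (evZ w F) w) with hG
      have hM : ∀ r l, syl t Q.natDegree Q G r l ∈ (smK hq).F 0 t := syl_mem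
        (A := fun _ => (smK hq).F 0 t) (fun _ n => Fil.mono _ (m := 0) le_rfl hct' (q2 n).2)
        fun _ n => by
          rw [hG, coeff_map]
          refine eval₂_mem (fun μ => (coeff_mem (coeff_tp_mem h1 _ n) μ).2) ?_
          rintro (_ | j)
          exacts [evZ_small hw0 F, hw0 j]
      have hG1 : G.eval (w i) ∈ small hq (t - K) := by
        rw [hG, eval_tp, show Function.update (fun o : Option ι => o.elim (evZ w F) w) (some i)
          (w i) = _ from Function.update_eq_self (some i) _]
        exact h3 w (fun j hj => hw j (mem_insert_of_mem hj)) hw0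
      obtain ⟨c0, hc0⟩ := det_split le_rfl (natDegree_map_le.trans (natDegree_tp h1 _) :
        G.natDegree ≤ t) hD (w i) 1
      have hp : ∀ l : ℕ, w i ^ l ∈ (smK hq).F 0 0 := fun l => by
        simpa using (smK hq).pow (m := 0) (hw0 i) l
      rw [← one_mul (Matrix.det _), hc0]
      refine add_mem ?_ ?_ <;> refine (smK hq).mono (m' := 0) (r := _ + -K) (by simp) ?_
        ((smK hq).det_update (α := fun _ => t) hM c0 ?_)
      · simpa [sub_eq_add_neg] using hN'
      · rintro (l | l)
        · rw [Sum.elim_inl, one_mul]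
          refine Fil.mono _ (by simp) ?_ ((smK hq).mul (m' := 0) (hp l)
            (hw i (mem_insert_self _ _) ▸ q3))
          simp
        · exact zero_mem _
      · simpa [sub_eq_add_neg] using hN'
      · rintro (l | l)
        · exact zero_mem _
        · rw [Sum.elim_inr, one_mul]
          exact Fil.mono _ (by simp) (by linarith) ((smK hq).mul (m' := 0) (hp l) hG1)

theorem subst [Fintype ι] [DecidableEq ι] (F : MvPolynomial ι ℤ) (y : ι → ℝ) (hF : evZ y F = 0)
    (I : Finset ι) {j : ι} (hj : j ∉ I) (hnd : (tp j F).map (evZ y) ≠ 0) (c : ℕ) :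
    ∃ c' : ℕ, ∀ K' : ℝ, ∃ K : ℝ, ∀ (U : Ultrafilter ℕ) (q : ℕ → ℝ) (hq : Tendsto q U atTop)
      (xs : ι → ℕ → ℚ), (∀ i, (cR (xs i), fun _ => y i) ∈ near hq (-K)) →
      (∀ i ∈ I, App hq (germ U (xs i)) c K) →
      Rel hq (fun i => germ U (xs i)) (I : Set ι)ᶜ c' K' := by
  obtain ⟨t, -, ht⟩ := elim_all F c I
  refine ⟨t, fun K' => ⟨|K'| + t + 1, fun U q hq xs hn hx => ?_⟩⟩
  set K : ℝ := |K'| + t + 1 with hKd
  have hK : 0 < K := by positivity
  set x : ι → UP U := fun i => germ U (xs i) with hxd
  obtain ⟨χ, h1, h2, h3⟩ := ht U q hq K x hK hx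
  have hx0 : ∀ i, x i ∈ small hq 0 := fun i => germ_small.mpr (hn i).1
  set p := MvPolynomial.optionEquivLeft (UP U) ι χ with hp
  have hp0 : p ≠ 0 := fun h => h2 0 (by
    rw [(EmbeddingLike.map_eq_zero_iff).mp h, map_zero])
  obtain ⟨p1, hp1, hp2⟩ := exists_eq_pow_rootMultiplicity_mul_and_not_dvd p hp0 0
  rw [C_0, sub_zero] at hp1 hp2
  set k0 := rootMultiplicity 0 p
  have hc : ∀ n, p1.coeff n ∈ (mvFil (zs hq) (I : Set ι)ᶜ).F t t := fun n μ hμ => by
    have e : p1.coeff n = p.coeff (n + k0) := by rw [hp1, coeff_X_pow_mul]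
    rw [e] at hμ ⊢
    obtain ⟨a1, a2, a3⟩ := h1 _ ((MvPolynomial.mem_support_coeff_optionEquivLeft _).mp hμ)
    refine ⟨fun i => by simpa using a1 (some i), fun i hi => ?_,
      by rwa [hp, MvPolynomial.optionEquivLeft_coeff_coeff]⟩
    simpa using a2 (some i) fun h => h i (by simpa using hi) rfl
  have hev : ∀ (w : ι → UP U) (z : UP U), MvPolynomial.eval₂Hom (RingHom.id _)
      (fun o : Option ι => o.elim z w) χ =
      z ^ k0 * (p1.map (MvPolynomial.eval₂Hom (RingHom.id _) w)).eval z := fun w z => by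
    have := MvPolynomial.optionEquivLeft_elim_eval (UP U) ι w z χ
    rw [← hp, hp1, Polynomial.map_mul, Polynomial.map_pow, map_X, eval_mul, eval_pow,
      eval_X] at this
    exact this
  set Ξ := p1.eval (evZ MvPolynomial.X F) with hΞ
  have hΞw : ∀ w : ι → UP U, MvPolynomial.eval₂Hom (RingHom.id _) w Ξ =
      (p1.map (MvPolynomial.eval₂Hom (RingHom.id _) w)).eval (evZ w F) := fun w => by
    rw [hΞ, eval_map, ← eval₂_at_apply, hom_evZ]
    simp
  have hnear : ∀ w : ι → ℕ → ℚ, ∀ z : ι → ℝ, (∀ i, (cR (w i), fun _ => z i) ∈ near hq (-K)) →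
      (cR (evZ w F), fun _ => evZ z F) ∈ near hq (-K) := fun w z h => by
    have := near_evZ h F
    have e : (fun _ : ℕ => evZ z F) = evZ (fun i _ => z i) F := hom_evZ (Pi.constRingHom ℕ ℝ) z F
    rwa [← hom_evZ cR w F, ← e] at this
  have h4 : ∀ l : ℕ, ¬ ((tp j F).map (evZ y)).IsRoot l →
      ((tp j Ξ).map (MvPolynomial.eval₂Hom (RingHom.id _) x)).eval (l : UP U) ∈
        small hq (t - K) := fun l hl => by
    have e : (fun i => germ U (Function.update xs j (fun _ => l) i)) =
        Function.update x j (l : UP U) := funext fun i => by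
      by_cases h : i = j
      · rw [h, Function.update_self, Function.update_self]; exact map_natCast (germ U) l
      · rw [Function.update_of_ne h, Function.update_of_ne h]
    obtain ⟨a1, a2⟩ := inv_small_of_near (fun h => hl ((eval_tp j _ y l F).trans h)) hK
      (hnear (Function.update xs j fun _ => l) (Function.update y j l) fun i => by
        by_cases h : i = j
        · rw [h, Function.update_self, Function.update_self]
          convert natCast_mem (near hq (-K)) l using 1
          exact Prod.ext (by ext k; simp [cR]) (by ext k; simp)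
        · rw [Function.update_of_ne h, Function.update_of_ne h]; exact hn i)
    rw [hom_evZ, e] at a1 a2
    have a3 := h3 (Function.update x j l)
      (fun i hi => Function.update_of_ne (by rintro rfl; exact hj hi) _ _) fun i => by
        by_cases h : i = j
        · rw [h, Function.update_self, ← mem_smK]; simpa using (smK hq).int l
        · rw [Function.update_of_ne h]; exact hx0 i
    have a4 := (smK hq).mul (m' := 0) ((smK hq).pow (m := 0) a2 k0) a3
    rw [hev, ← mul_assoc, ← mul_pow, inv_mul_cancel₀ a1, one_pow, one_mul, ← hΞw] at a4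
    rw [eval_tp, ← mem_smK]
    simpa using a4
  have hsum : ∀ {g : (UP U)[X]} {z : UP U} {r : ℝ}, (∀ n, g.coeff n ∈ small hq r) →
      z ∈ small hq 0 → g.eval z ∈ small hq r := fun {g z r} h hz => by
    rw [eval_eq_sum_range]
    exact Submodule.sum_mem _ fun n _ => by
      rw [← mem_smK]
      simpa using (smK hq).mul (m := 0) (h n) ((smK hq).pow (m := 0) hz n)
  have h5 := hsum (coeff_mem_of_infinite _ _ (Set.Infinite.mono (fun l hl => h4 l hl)
    (((finite_setOfPred_isRoot hnd).preimage
      (Nat.cast_injective (R := ℝ)).injOn).infinite_compl))) (hx0 j)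
  rw [eval_tp, Function.update_eq_self, hΞw, ← divX_mul_X_add (p1.map _), eval_add, eval_mul,
    eval_X, eval_C, coeff_map] at h5
  have h6 : evZ x F ∈ small hq (-K) := by
    have := (hnear xs y hn).2.2
    rw [hF] at this
    rw [hxd, ← hom_evZ, germ_small]
    exact (sub_zero (cR (evZ xs F))) ▸ this
  have h7 := (smK hq).mul (m := 0) (m' := 0) (hsum (r := t)
    (g := (p1.map (MvPolynomial.eval₂Hom (RingHom.id _) x)).divX) (fun n => by
    rw [coeff_divX, coeff_map]
    exact eval₂_mem (Ψ := smK hq) (fun μ => (coeff_mem (hc _) μ).2) hx0) (evZ_small hx0 F)) h6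
  refine ⟨p1.coeff 0, fun h => hp2 (X_dvd_iff.mpr h), hc 0, ?_⟩
  have h8 := sub_mem h5 h7
  rw [add_sub_cancel_left] at h8
  exact (smK hq).mono (m := 0) (m' := 0) le_rfl (by linarith [le_abs_self K']) h8

end Pool.Agent.Lib.MP_c9a594_an.AR
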