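import Pool.Agent.Lib.MP_c9a594_an.AR.Defs

/-! Algebraic lemmas for the substitution step. -/

open Filter Topology Real Finset Polynomial

namespace Pool.Agent.Lib.MP_c9a594_an.AR

open AI

section tp

variable {σ R E : Type} [DecidableEq σ] [CommRing R] [CommRing E]

/-- A polynomial in several variables as a polynomial in the variable `i`. -/
noncomputable def tp (i : σ) : MvPolynomial σ R →+* (MvPolynomial σ R)[X] :=
  MvPolynomial.eval₂Hom (C.comp MvPolynomial.C)
    fun j => if j = i then X else C (MvPolynomial.X j)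

lemma eval_tp (i : σ) (φ : R →+* E) (g : σ → E) (α : E) (p : MvPolynomial σ R) :
    ((tp i p).map (MvPolynomial.eval₂Hom φ g)).eval α =
      MvPolynomial.eval₂Hom φ (Function.update g i α) p := by
  have : (evalRingHom α).comp ((mapRingHom (MvPolynomial.eval₂Hom φ g)).comp (tp i)) =
      MvPolynomial.eval₂Hom φ (Function.update g i α) :=
    MvPolynomial.ringHom_ext (fun r => by simp [tp]) fun j => by
      by_cases h : j = i <;> simp [tp, h]
  exact RingHom.congr_fun this p

lemma tp_monomial (i : σ) (ν : σ →₀ ℕ) (a : R) : tp i (MvPolynomial.monomial ν a) =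
    C (MvPolynomial.monomial (ν.erase i) a) * X ^ ν i := by
  conv_lhs => rw [← Finsupp.erase_add_single i ν, MvPolynomial.monomial_add_single, map_mul, map_pow]
  congr 1
  · rw [tp, MvPolynomial.eval₂Hom_monomial, MvPolynomial.monomial_eq, map_mul, map_finsuppProd]
    refine congrArg _ (Finsupp.prod_congr fun j hj => ?_)
    rw [if_neg (by rintro rfl; simp at hj), map_pow]
  · simp [tp]

lemma coeff_tp (i : σ) (p : MvPolynomial σ R) (l : ℕ) (μ : σ →₀ ℕ) :
    ((tp i p).coeff l).coeff μ = if μ i = 0 then p.coeff (μ + Finsupp.single i l) else 0 := by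
  induction p using MvPolynomial.induction_on' with
  | monomial ν a =>
    rw [tp_monomial, coeff_C_mul_X_pow, MvPolynomial.coeff_monomial]
    by_cases h : ν = μ + Finsupp.single i l
    · by_cases h0 : μ i = 0
      · have h1 : l = ν i := by simp [h, h0]
        have h2 : ν.erase i = μ := by
          rw [h, Finsupp.erase_add, Finsupp.erase_single, add_zero,
            Finsupp.erase_of_notMem_support (by simpa using h0)]
        rw [if_pos h1, if_pos h0, if_pos h, MvPolynomial.coeff_monomial, if_pos h2]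
      · rw [if_neg h0]
        split_ifs
        · rw [MvPolynomial.coeff_monomial, if_neg]
          rintro rfl
          simp at h0
        · simp
    · rw [if_neg h, ite_self]
      split_ifs with h1
      · rw [MvPolynomial.coeff_monomial, if_neg]
        rintro rfl
        exact h (by rw [h1, Finsupp.erase_add_single])
      · simp
  | add p p' hp hp' =>
    rw [map_add, coeff_add, MvPolynomial.coeff_add, hp, hp', MvPolynomial.coeff_add]
    split_ifs <;> simp

lemma mem_support_tp {i : σ} {p : MvPolynomial σ R} {l : ℕ} {μ : σ →₀ ℕ}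
    (h : μ ∈ ((tp i p).coeff l).support) : μ i = 0 ∧ μ + Finsupp.single i l ∈ p.support := by
  rw [MvPolynomial.mem_support_iff, coeff_tp] at h
  rw [MvPolynomial.mem_support_iff]
  by_cases h0 : μ i = 0
  · exact ⟨h0, by rwa [if_pos h0] at h⟩
  · exact absurd (if_neg h0) h

variable {Φ : Fil R} {s : Set σ} {m : ℕ} {r : ℝ} {p : MvPolynomial σ R}

lemma coeff_tp_mem (hp : p ∈ (mvFil Φ s).F m r) (i : σ) (l : ℕ) :
    (tp i p).coeff l ∈ (mvFil Φ (s \ {i})).F m r := fun μ hμ => by
  obtain ⟨h0, h1⟩ := mem_support_tp hμ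
  obtain ⟨h2, h3, h4⟩ := hp _ h1
  refine ⟨fun j => le_of_add_le_left (h2 j), fun j hj => ?_, by rwa [coeff_tp, if_pos h0]⟩
  by_cases hji : j = i
  · rwa [hji]
  · exact Nat.eq_zero_of_add_eq_zero_right (h3 j fun h => hj ⟨h, hji⟩)

lemma natDegree_tp (hp : p ∈ (mvFil Φ s).F m r) (i : σ) : (tp i p).natDegree ≤ m := by
  refine natDegree_le_iff_coeff_eq_zero.mpr fun l hl => ?_
  by_contra h
  obtain ⟨μ, hμ⟩ := MvPolynomial.support_nonempty.mpr h
  have := (hp _ (mem_support_tp hμ).2).1 i
  simp only [Finsupp.coe_add, Pi.add_apply, Finsupp.single_eq_same] at this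
  omega

omit [DecidableEq σ] in
lemma mvFil_mono {s' : Set σ} (h : s ⊆ s') (hp : p ∈ (mvFil Φ s).F m r) :
    p ∈ (mvFil Φ s').F m r := fun μ hμ =>
  ⟨(hp μ hμ).1, fun i hi => (hp μ hμ).2.1 i fun h1 => hi (h h1), (hp μ hμ).2.2⟩

omit [DecidableEq σ] in
lemma eval₂_mem {Ψ : Fil E} {φ : R →+* E} {g : σ → E} (h : ∀ μ, φ (p.coeff μ) ∈ Ψ.F 0 r)
    (hg : ∀ i, g i ∈ Ψ.F 0 0) : MvPolynomial.eval₂Hom φ g p ∈ Ψ.F 0 r := by
  rw [MvPolynomial.coe_eval₂Hom, MvPolynomial.eval₂_eq]
  refine AddSubgroup.sum_mem _ fun μ _ => ?_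
  have := Ψ.mul (h μ) (Ψ.prod μ.support (f := fun i => g i ^ μ i) (m := 0) (r := fun _ => 0)
    fun i _ => by simpa using Ψ.pow (hg i) (μ i))
  simpa using this

omit [DecidableEq σ] in
lemma coeff_mem (hp : p ∈ (mvFil Φ s).F m r) (μ : σ →₀ ℕ) : p.coeff μ ∈ Φ.F 0 r := by
  by_cases h : μ ∈ p.support
  · exact (hp μ h).2.2
  · rw [MvPolynomial.notMem_support_iff.mp h]; exact zero_mem _

end tp

section syl

variable {E : Type} [CommRing E] [IsDomain E]

lemma prod_dvd_of_dvd_mul (t : Multiset E) {F : E[X]} (h : ∀ τ ∈ t, F.eval τ ≠ 0) :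
    ∀ B : E[X], (t.map (X - C ·)).prod ∣ B * F → (t.map (X - C ·)).prod ∣ B := by
  induction t using Multiset.induction_on with
  | empty => simp
  | cons τ t ih =>
    intro B hB
    rw [Multiset.map_cons, Multiset.prod_cons] at hB ⊢
    obtain ⟨B', rfl⟩ := ((prime_X_sub_C τ).dvd_or_dvd (dvd_of_mul_right_dvd hB)).resolve_right
      fun h1 => h τ (Multiset.mem_cons_self _ _) (dvd_iff_isRoot.mp h1)
    rw [mul_assoc, mul_dvd_mul_iff_left (X_sub_C_ne_zero τ)] at hB
    exact mul_dvd_mul_left _ (ih (fun x hx => h x (Multiset.mem_cons_of_mem hx)) B' hB)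

/-- The Sylvester determinant of two polynomials without a common root. -/
lemma det_syl_ne_zero_of_roots {e : ℕ} (t : Multiset E) {a : E} (ha : a ≠ 0) {F : E[X]}
    (hF : F.natDegree ≤ e) (h : ∀ τ ∈ t, F.eval τ ≠ 0) :
    (syl e t.card (C a * (t.map (X - C ·)).prod) F).det ≠ 0 := by
  classical
  intro h0
  have hm : (t.map (X - C ·)).prod.Monic := monic_multiset_prod_of_monic _ _ fun τ _ => monic_X_sub_C τ
  have hd : (t.map (X - C ·)).prod.natDegree = t.card := natDegree_multiset_prod_X_sub_C_eq_card t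
  have hP : (C a * (t.map (X - C ·)).prod).natDegree ≤ t.card :=
    (natDegree_C_mul_le _ _).trans hd.le
  obtain ⟨v, hv0, hv⟩ := Matrix.exists_vecMul_eq_zero_iff.mpr h0
  have h3 : ∑ r, C (v r) * row e t.card (C a * (t.map (X - C ·)).prod) F r = 0 := by
    ext n
    rw [finsetSum_coeff, coeff_zero]
    by_cases hn : n < e + t.card
    · have := congrFun hv (finSumFinEquiv.symm ⟨n, hn⟩)
      simpa [Matrix.vecMul, dotProduct, syl] using this
    · exact sum_eq_zero fun r _ => by
        rw [coeff_C_mul, coeff_eq_zero_of_natDegree_lt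
          ((natDegree_row hP hF r).trans_le (not_lt.mp hn)), mul_zero]
  simp only [Fintype.sum_sum_type, row, Sum.elim_inl, Sum.elim_inr, ← mul_assoc, ← sum_mul] at h3
  have h5 := eq_zero_of_dvd_of_degree_lt (prod_dvd_of_dvd_mul t h _
    ⟨_, by rw [eq_neg_of_add_eq_zero_right h3, mul_comm, ← mul_neg]⟩)
    (by rw [degree_eq_natDegree hm.ne_zero, hd]; exact degree_sum_fin_lt _)
  rw [h5, zero_mul, add_zero] at h3
  refine hv0 (funext ?_)
  rintro (i | j)
  exacts [eq_zero_of_sum ((mul_eq_zero.mp ((mul_eq_zero.mp h3).resolve_right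
    hm.ne_zero)).resolve_right (C_ne_zero.mpr ha)) i, eq_zero_of_sum h5 j]

end syl

/-- A polynomial with infinitely many natural values in a rational subspace has its coefficients
in the subspace. -/
lemma coeff_mem_of_infinite {K : Type} [Field K] [CharZero K] (N : Submodule ℚ K) (p : K[X])
    (h : {l : ℕ | p.eval (l : K) ∈ N}.Infinite) (n : ℕ) : p.coeff n ∈ N := by
  by_contra hn
  obtain ⟨f, hf, hf0⟩ := N.exists_dual_map_eq_bot_of_notMem hn inferInstance
  let g : ℚ[X] := ∑ k ∈ range (p.natDegree + 1), C (f (p.coeff k)) * X ^ k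
  have hg : g = 0 := by
    refine eq_zero_of_infinite_isRoot _ ((h.image (Nat.cast_injective (R := ℚ)).injOn).mono ?_)
    rintro _ ⟨l, hl, rfl⟩
    have h1 : f (p.eval (l : K)) = 0 := by
      rw [← Submodule.mem_bot ℚ, ← hf0]; exact Submodule.mem_map_of_mem hl
    rw [eval_eq_sum_range, map_sum] at h1
    rw [Set.mem_ofPred_eq, IsRoot.def, eval_finsetSum, ← h1]
    refine sum_congr rfl fun k _ => ?_
    rw [show p.coeff k * (l : K) ^ k = ((l : ℚ) ^ k) • p.coeff k by
      rw [Rat.smul_def, mul_comm]; simp, map_smul, eval_mul, eval_C, eval_pow, eval_X, smul_eq_mul,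
      mul_comm]
  have h2 := congrArg (coeff · n) hg
  by_cases hl : n < p.natDegree + 1
  · simp [g, finsetSum_coeff, coeff_X_pow, hl] at h2
    exact hf h2
  · exact hf (by rw [coeff_eq_zero_of_natDegree_lt (by omega), map_zero])

end Pool.Agent.Lib.MP_c9a594_an.AR
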