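import Pool.Agent.Lib.MP_c9a594_an.AI.Fils

/-! Monomials in finitely many multiplicatively independent integers. -/

open Filter Topology Real Finset Pool.Agent.Subspace MvPolynomial

namespace Pool.Agent.Lib.MP_c9a594_an.AR

variable {ι : Type} [Fintype ι] (U : Ultrafilter ℕ) (q : ℕ → ℝ) (b : ι → ℕ)

/-- The class of a product of powers of the bases. -/
noncomputable def gmr (γ : ℕ → ι → ℤ) : UP U := germ U fun k => ∏ i, (b i : ℚ) ^ γ k i

/-- The exponent sequence `γ` has rates `ξ`. -/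
def Rt (γ : ℕ → ι → ℤ) (ξ : ι → ℝ) : Prop :=
  ∀ i, Tendsto (fun k => (γ k i : ℝ) / q k) U (𝓝 (ξ i))

variable {U q b}

omit [Fintype ι] in
lemma Rt.zero : Rt U q (0 : ℕ → ι → ℤ) 0 := fun i => by simp

omit [Fintype ι] in
lemma Rt.add {γ γ' : ℕ → ι → ℤ} {ξ ξ' : ι → ℝ} (h : Rt U q γ ξ) (h' : Rt U q γ' ξ') :
    Rt U q (γ + γ') (ξ + ξ') := fun i => by simpa [add_div] using (h i).add (h' i)

omit [Fintype ι] in
lemma Rt.zsmul {γ : ℕ → ι → ℤ} {ξ : ι → ℝ} (h : Rt U q γ ξ) (n : ℤ) :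
    Rt U q (n • γ) (n • ξ) := fun i => by
  simpa [mul_div_assoc] using (h i).const_mul (n : ℝ)

omit [Fintype ι] in
lemma Rt.nsmul {γ : ℕ → ι → ℤ} {ξ : ι → ℝ} (h : Rt U q γ ξ) (n : ℕ) :
    Rt U q (n • γ) (n • ξ) := by simpa using h.zsmul n

omit [Fintype ι] in
lemma Rt.sum {T : Type} (s : Finset T) {γ : T → ℕ → ι → ℤ} {ξ : T → ι → ℝ}
    (h : ∀ t, Rt U q (γ t) (ξ t)) : Rt U q (∑ t ∈ s, γ t) (∑ t ∈ s, ξ t) := by
  classical
  induction s using Finset.induction_on with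
  | empty => simpa using Rt.zero
  | insert a s ha ih => simpa only [sum_insert ha] using (h a).add ih

omit [Fintype ι] in
lemma Rt.const (hq : Tendsto q U atTop) (c : ι → ℤ) : Rt U q (fun _ => c) 0 :=
  fun _ => tendsto_const_nhds.div_atTop hq

variable (U q) in
/-- Exponent sequences that have rates. -/
def tameR : Submodule ℤ (ℕ → ι → ℤ) where
  carrier := {γ | ∃ ξ, Rt U q γ ξ}
  zero_mem' := ⟨0, Rt.zero⟩
  add_mem' := fun ⟨_, h⟩ ⟨_, h'⟩ => ⟨_, h.add h'⟩
  smul_mem' := fun c _ ⟨_, h⟩ => ⟨_, h.zsmul c⟩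

variable (U) in
/-- Exponent sequences that are almost constant. -/
def stdR : Submodule ℤ (ℕ → ι → ℤ) where
  carrier := {γ | ∃ c, ∀ᶠ k in U, γ k = c}
  zero_mem' := ⟨0, by simp⟩
  add_mem' := by
    rintro x y ⟨C, h⟩ ⟨C', h'⟩
    exact ⟨C + C', (h.and h').mono fun k hk => by rw [Pi.add_apply, hk.1, hk.2]⟩
  smul_mem' := by
    rintro c x ⟨C, h⟩
    exact ⟨c • C, h.mono fun k hk => by rw [Pi.smul_apply, hk]⟩

omit [Fintype ι] in
lemma stdR_pure (n : ℤ) (x : ℕ → ι → ℤ) (hn : n ≠ 0) (h : n • x ∈ stdR U) : x ∈ stdR U := by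
  obtain ⟨c, h⟩ := h
  obtain ⟨k0, h0⟩ := h.exists
  exact ⟨x k0, h.mono fun k hk => smul_right_injective _ hn (hk.trans h0.symm)⟩

lemma tendsto_norm_of_not_stdR {x : ℕ → ι → ℤ} (h : x ∉ stdR U) :
    Tendsto (fun k => ‖x k‖) U atTop := by
  rcases (U.map x).le_cofinite_or_eq_pure with h1 | ⟨c, hc⟩
  · refine (tendsto_norm_cocompact_atTop (E := ι → ℤ)).comp ?_
    rw [cocompact_eq_cofinite]
    exact h1
  · refine absurd ⟨c, ?_⟩ h
    have : {c} ∈ U.map x := by rw [hc]; simp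
    exact this

lemma gmr_add (hb : ∀ i, b i ≠ 0) (γ γ' : ℕ → ι → ℤ) :
    gmr U b (γ + γ') = gmr U b γ * gmr U b γ' := by
  rw [gmr, gmr, gmr, ← map_mul]
  congr 1; ext k
  simp only [Pi.add_apply, Pi.mul_apply, ← prod_mul_distrib]
  exact prod_congr rfl fun i _ => zpow_add₀ (by exact_mod_cast hb i) _ _

lemma gmr_zero : gmr U b 0 = 1 := by
  rw [gmr, ← map_one (germ U)]; congr 1; ext k; simp

lemma gmr_neg (γ : ℕ → ι → ℤ) : gmr U b (-γ) = (gmr U b γ)⁻¹ := by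
  rw [gmr, gmr, ← germ_inv]; congr 1; ext k; simp

lemma gmr_sum (hb : ∀ i, b i ≠ 0) {T : Type} (s : Finset T) (γ : T → ℕ → ι → ℤ) :
    gmr U b (∑ t ∈ s, γ t) = ∏ t ∈ s, gmr U b (γ t) := by
  classical
  induction s using Finset.induction_on with
  | empty => simpa using gmr_zero
  | insert t s ht ih => rw [sum_insert ht, prod_insert ht, gmr_add hb, ih]

lemma gmr_nsmul (hb : ∀ i, b i ≠ 0) (n : ℕ) (γ : ℕ → ι → ℤ) :
    gmr U b (n • γ) = gmr U b γ ^ n := by
  simpa using gmr_sum (U := U) hb (range n) fun _ => γ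

lemma gmr_ne_zero (hb : ∀ i, b i ≠ 0) (γ : ℕ → ι → ℤ) : gmr U b γ ≠ 0 :=
  left_ne_zero_of_mul_eq_one (b := gmr U b (-γ)) (by rw [← gmr_add hb, add_neg_cancel, gmr_zero])

lemma mon_gmr (hb : ∀ i, b i ≠ 0) {r : ℕ} (g : Fin r → ℕ → ι → ℤ) (e : Fin r →₀ ℕ) :
    mon (fun i => gmr U b (g i)) e = gmr U b (∑ i, (e i : ℤ) • g i) := by
  simp only [mon, gmr_sum hb, natCast_zsmul, gmr_nsmul hb]

lemma gmr_mem (hq : Tendsto q U atTop) (hb : ∀ i, b i ≠ 0) {γ : ℕ → ι → ℤ} (h : γ ∈ tameR U q) :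
    gmr U b γ ∈ tameO U q (∏ i, b i) := by
  classical
  obtain ⟨ξ, h⟩ := h
  have e : gmr U b γ = ∏ i, gm U (b i) (∏ j ∈ univ.erase i, b j) fun k => (γ k i, 0) := by
    simp only [gmr, gm, ← map_prod]
    congr 1; ext k; simp
  rw [e]
  refine Submonoid.prod_mem _ fun i _ => ?_
  rw [← mul_prod_erase _ _ (mem_univ i)]
  exact gm_mem (hb i) (prod_ne_zero_iff.mpr fun j _ => hb j)
    (tame_of_lim hq (y := 0) (h i) (by simp))

variable {S : Finset ℕ} {hS : ∀ p ∈ S, p.Prime}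

lemma ordU_gmr (hb : ∀ i, b i ≠ 0) {γ : ℕ → ι → ℤ} {ξ : ι → ℝ} (h : Rt U q γ ξ) (v : Option S) :
    ordU U hS q v (gmr U b γ) = ∑ i, ξ i * log (plAbs S hS v (b i)) := by
  refine ordU_eq ((tendsto_finsetSum _ fun i _ => (h i).mul_const _).congr fun k => ?_)
  rw [rate, map_prod, log_prod fun i _ => (plAbs S hS v).ne_zero
    (zpow_ne_zero _ (by exact_mod_cast hb i)), sum_div]
  exact sum_congr rfl fun i _ => by rw [map_zpow₀, log_zpow]; ring

lemma sum_ordU_gmr (hb : ∀ i, b i ≠ 0) (hωS : ∀ p, p.Prime → p ∣ ∏ i, b i → p ∈ S)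
    {γ : ℕ → ι → ℤ} (h : γ ∈ tameR U q) : ∑ v, ordU U hS q v (gmr U b γ) = 0 := by
  obtain ⟨ξ, h⟩ := h
  simp only [ordU_gmr hb h]
  rw [sum_comm]
  refine sum_eq_zero fun i _ => ?_
  rw [← mul_sum, sum_log_plAbs (hb i) fun p hp h =>
    hωS p hp (h.trans (dvd_prod_of_mem _ (mem_univ i))), mul_zero]

variable (hS) in
lemma exists_cramerR (hb : ∀ i, b i ≠ 0) (hi : ∀ e : ι → ℤ, ∏ i, (b i : ℚ) ^ e i = 1 → e = 0)
    (hωS : ∀ p, p.Prime → p ∣ ∏ i, b i → p ∈ S) : ∃ C : ℝ, 0 ≤ C ∧ ∀ (ξ : ι → ℝ) (R : ℝ),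
      (∀ v, |∑ i, ξ i * log (plAbs S hS v (b i))| ≤ R) → ∀ i, |ξ i| ≤ C * R := by
  let f : (ι → ℝ) →ₗ[ℝ] (Option S → ℝ) := LinearMap.pi fun v =>
    ∑ i, log (plAbs S hS v (b i)) • LinearMap.proj i
  have hf : ∀ ξ v, f ξ v = ∑ i, ξ i * log (plAbs S hS v (b i)) := fun ξ v => by simp [f, mul_comm]
  have h1 : LinearIndependent ℤ fun i (p : S) => ((b i).factorization p : ℤ) := by
    refine Fintype.linearIndependent_iff.mpr fun e he => congrFun (hi e ?_)
    have h2 : ∀ p : S, ∑ i, (e i : ℝ) * log (plAbs S hS (some p) (b i)) = 0 := fun p => by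
      have : ∑ i, e i * ((b i).factorization p : ℤ) = 0 := by simpa using congrFun he p
      have h3 : ∑ i, (e i : ℝ) * (b i).factorization p = 0 := by exact_mod_cast this
      simp only [log_plAbs_nat (hb _), mul_neg, ← mul_assoc, sum_neg_distrib, ← sum_mul, h3]
      simp
    have h3 : ∑ v, ∑ i, (e i : ℝ) * log (plAbs S hS v (b i)) = 0 := by
      rw [sum_comm]
      refine sum_eq_zero fun i _ => ?_
      rw [← mul_sum, sum_log_plAbs (hb i) fun p hp h =>
        hωS p hp (h.trans (dvd_prod_of_mem _ (mem_univ i))), mul_zero]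
    rw [Fintype.sum_option] at h3
    simp only [h2, sum_const_zero, add_zero, plAbs_none, Rat.cast_natCast, Nat.abs_cast] at h3
    have h4 : ∀ i, (0 : ℝ) < (b i : ℝ) ^ e i := fun i =>
      zpow_pos (by exact_mod_cast Nat.pos_of_ne_zero (hb i)) _
    have h5 : ∏ i, (b i : ℝ) ^ e i = 1 := by
      refine eq_one_of_pos_of_log_eq_zero (prod_pos fun i _ => h4 i) ?_
      rw [log_prod fun i _ => (h4 i).ne']
      simpa only [log_zpow] using h3
    exact Rat.cast_injective (α := ℝ) (by push_cast; exact h5)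
  obtain ⟨K, -, hK⟩ := f.exists_antilipschitzWith (LinearMap.ker_eq_bot'.mpr fun ξ h => by
    refine funext (Fintype.linearIndependent_iff.mp
      ((linearIndependent_algebraMap_comp_iff (S := ℝ)).mpr h1) ξ (funext fun p => ?_))
    have := congrFun h (some p)
    simp only [hf, log_plAbs_nat (hb _), mul_neg, ← mul_assoc, sum_neg_distrib, ← sum_mul,
      Pi.zero_apply, neg_eq_zero] at this
    simpa using (mul_eq_zero.mp this).resolve_right (log_pos_of_mem hS p).ne')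
  refine ⟨K, K.2, fun ξ R h i => ?_⟩
  have h0 : 0 ≤ R := (abs_nonneg _).trans (h none)
  exact (norm_le_pi_norm ξ i).trans ((ZeroHomClass.bound_of_antilipschitz f hK _).trans
    (mul_le_mul_of_nonneg_left ((pi_norm_le_iff_of_nonneg h0).mpr fun v => by
      rw [hf]; exact h v) K.2))

/-- Monomials whose exponents differ by non-constant sequences are linearly independent. -/
theorem gmr_independent (hb : ∀ i, b i ≠ 0) (hi : ∀ e : ι → ℤ, ∏ i, (b i : ℚ) ^ e i = 1 → e = 0)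
    {J : Type} (γ : J → ℕ → ι → ℤ) (hγ : ∀ i j, γ i - γ j ∈ stdR U → i = j) :
    LinearIndependent ℚ fun j => gmr U b (γ j) := by
  classical
  rw [linearIndependent_iff']
  intro s
  induction s using Finset.strongInduction with
  | H s ih =>
  intro c hc
  by_cases h0 : ∃ j ∈ s, c j = 0
  · obtain ⟨j, hj, hcj⟩ := h0
    rw [← add_sum_erase _ _ hj, hcj, zero_smul, zero_add] at hc
    intro i hi
    by_cases hij : i = j
    · rw [hij, hcj]
    · exact ih _ (erase_ssubset hj) c hc i (mem_erase.mpr ⟨hij, hi⟩)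
  intro j hj
  exfalso
  push Not at h0
  have hne : gmr U b (γ j) ≠ 0 := gmr_ne_zero hb _
  let δ : s.erase j → ℕ → ι → ℤ := fun i => γ i - γ j
  have hδ : ∀ i, gmr U b (δ i) = gmr U b (γ i) * (gmr U b (γ j))⁻¹ := fun i => by
    rw [← gmr_neg, ← gmr_add hb, ← sub_eq_add_neg]
  have h1 : ∑ i : s.erase j, (-c i / c j) • gmr U b (δ i) = 1 := by
    rw [← add_sum_erase _ _ hj, ← sum_coe_sort] at hc
    simp only [hδ, div_eq_inv_mul, mul_smul, ← smul_mul_assoc, ← sum_mul, neg_smul,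
      ← Finset.smul_sum, sum_neg_distrib]
    rw [← eq_neg_of_add_eq_zero_left hc, inv_smul_smul₀ (h0 j hj), mul_inv_cancel₀ hne]
  have hi' : LinearIndependent ℚ fun i => gmr U b (δ i) := by
    have h2 : LinearIndepOn ℚ (fun j => gmr U b (γ j)) (s.erase j : Finset J) :=
      linearIndepOn_finset_iff.mpr (ih _ (erase_ssubset hj))
    simp only [hδ]
    exact h2.map' (LinearMap.mulRight ℚ _)
      (LinearMap.ker_eq_bot.mpr (mul_left_injective₀ (inv_ne_zero hne)))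
  obtain ⟨i1⟩ : Nonempty (s.erase j) := by
    by_contra h
    rw [not_nonempty_iff] at h
    simp at h1
  let q : ℕ → ℝ := fun k => ∑ i, ‖δ i k‖
  have hle : ∀ i k, ‖δ i k‖ ≤ q k := fun i k =>
    single_le_sum (f := fun i => ‖δ i k‖) (fun _ _ => norm_nonneg _) (mem_univ i)
  have hq : Tendsto q U atTop := tendsto_atTop_mono (hle i1)
    (tendsto_norm_of_not_stdR fun h => (mem_erase.mp i1.2).1 (hγ _ _ h))
  have ht : ∀ i, δ i ∈ tameR U q := fun i => by
    choose ξ _ hξ using fun l => exists_lim (U := U) (x := fun k => (δ i k l : ℝ) / q k) (A := 1) (by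
      filter_upwards [hq.eventually_gt_atTop 0] with k hk
      rw [abs_div, abs_of_pos hk, div_le_one hk, ← Int.norm_eq_abs]
      exact (norm_le_pi_norm _ l).trans (hle i k))
    exact ⟨ξ, hξ⟩
  have hω : ∏ i, b i ≠ 0 := prod_ne_zero_iff.mpr fun i _ => hb i
  have hS : ∀ p ∈ (∏ i, b i).primeFactors, p.Prime := fun p => Nat.prime_of_mem_primeFactors
  have hωS : ∀ p, p.Prime → p ∣ ∏ i, b i → p ∈ (∏ i, b i).primeFactors := fun p hp h =>
    Nat.mem_primeFactors.mpr ⟨hp, h, hω⟩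
  obtain ⟨C, -, hC⟩ := exists_cramerR hS hb hi hωS
  have h3 : ∀ i, Tendsto (fun k => ‖δ i k‖ / q k) U (𝓝 0) := fun i => by
    obtain ⟨ξ, hξ⟩ := ht i
    have h4 := hC ξ 0 fun v => by
      rw [← ordU_gmr hb hξ]
      exact (abs_eq_zero.mpr ((ctxU hS hq hω hωS).unit_eq
        (fun i => gmr_mem hq hb (ht i)) (fun i => sum_ordU_gmr hb hωS (ht i)) hi' h1
        (div_ne_zero (neg_ne_zero.mpr (h0 _ (mem_erase.mp i.2).2)) (h0 j hj)) v)).le
    have h5 := tendsto_finsetSum univ fun l _ => (hξ l).abs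
    rw [sum_eq_zero fun l _ => ((h4 l).trans_eq (mul_zero C)).antisymm (abs_nonneg _)] at h5
    refine squeeze_zero' ((hq.eventually_ge_atTop 0).mono fun k hk => by positivity) ?_ h5
    filter_upwards [hq.eventually_gt_atTop 0] with k hk
    simp only [abs_div, abs_of_pos hk, ← sum_div]
    refine div_le_div_of_nonneg_right ((pi_norm_le_iff_of_nonneg (by positivity)).mpr fun l => ?_)
      hk.le
    rw [Int.norm_eq_abs]
    exact single_le_sum (f := fun l => |(δ i k l : ℝ)|) (fun _ _ => abs_nonneg _) (mem_univ l)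
  have h4 := tendsto_finsetSum univ fun i _ => h3 i
  rw [sum_const_zero] at h4
  refine one_ne_zero (tendsto_nhds_unique (tendsto_const_nhds.congr' ?_) h4)
  filter_upwards [hq.eventually_gt_atTop 0] with k hk
  rw [← sum_div, div_self hk.ne']

lemma aeval_gmr_injective (hb : ∀ i, b i ≠ 0)
    (hi : ∀ e : ι → ℤ, ∏ i, (b i : ℚ) ^ e i = 1 → e = 0) {r : ℕ} {g : Fin r → ℕ → ι → ℤ}
    (hg : ∀ n : Fin r → ℤ, ∑ i, n i • g i ∈ stdR U → ∀ i, n i = 0)
    (F : MvPolynomial (Fin r) ℚ) (hF : aeval (fun i => gmr U b (g i)) F = 0) : F = 0 := by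
  have h := gmr_independent (U := U) hb hi
    (fun e : Fin r →₀ ℕ => ∑ i, (e i : ℤ) • g i) fun e e' h => by
      ext i
      have := hg (fun i => e i - e' i) (by simpa only [sub_smul, sum_sub_distrib] using h) i
      omega
  rw [aeval_eq_sum] at hF
  simp only [mon_gmr hb] at hF
  by_contra h0
  obtain ⟨e, he⟩ := support_nonempty.mpr h0
  exact mem_support_iff.mp he (linearIndependent_iff'.mp h _ _ hF e he)

lemma gmr_const (c : ι → ℤ) (z : UP U) :
    gmr U b (fun _ => c) * z = (∏ i, (b i : ℚ) ^ c i) • z := by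
  obtain ⟨f, rfl⟩ := germ_surj z
  rw [germ_smul, gmr, ← map_mul]; rfl

/-- Writing finitely many monomials in terms of independent ones. -/
lemma exists_monomialsR (hb : ∀ i, b i ≠ 0) {T : Type} [Fintype T] (γ : T → ℕ → ι → ℤ)
    (hγ : ∀ t, γ t ∈ tameR U q) :
    ∃ (r : ℕ) (g : Fin r → ℕ → ι → ℤ) (u : T → Fin r →₀ ℕ) (u0 : Fin r →₀ ℕ) (c : T → ι → ℤ),
      (∀ i, g i ∈ tameR U q) ∧ (∀ n : Fin r → ℤ, ∑ i, n i • g i ∈ stdR U → ∀ i, n i = 0) ∧
      ∀ t, mon (fun i => gmr U b (g i)) u0 * gmr U b (γ t) =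
        gmr U b (fun _ => c t) * mon (fun i => gmr U b (g i)) (u t) := by
  obtain ⟨r, g, u, hg, hu, hi⟩ := exists_presentation (stdR U) stdR_pure γ
  choose c hc using hu
  refine ⟨r, g,
    fun t => Finsupp.equivFunOnFinite.symm fun i => (u t i + ∑ t, (u t i).natAbs).toNat,
    Finsupp.equivFunOnFinite.symm fun i => ∑ t, (u t i).natAbs, c,
    fun i => Submodule.span_le.mpr (Set.range_subset_iff.mpr hγ) (hg i), hi, fun t => ?_⟩
  rw [mon_gmr hb, mon_gmr hb, ← gmr_add hb, ← gmr_add hb, gmr, gmr, germ_eq]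
  filter_upwards [hc t] with k hk
  have e : ∀ i, (((u t i + ∑ t, (u t i).natAbs).toNat : ℕ) : ℤ) =
      u t i + (∑ t, (u t i).natAbs : ℕ) := fun i => Int.toNat_of_nonneg (by
    have := single_le_sum (f := fun t => (u t i).natAbs) (fun _ _ => Nat.zero_le _) (mem_univ t)
    omega)
  simp only [Finsupp.coe_equivFunOnFinite_symm, e, add_smul, sum_add_distrib]
  rw [Pi.add_apply (fun _ => c t), ← hk]
  congr! 3
  simp only [Pi.add_apply, Pi.sub_apply]
  abel

end Pool.Agent.Lib.MP_c9a594_an.AR
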